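import Mathlib

/-! Table for the covering of the odd indices (see CompFib). -/

namespace Pool.Agent.R720.CompFib

/-- An entry: prime `q`, modulus `m`, residue `r`, and residues `x`, `d`. -/
structure Ent where
  q : ℕ
  m : ℕ
  r : ℕ
  x : ℕ
  d : ℕ

/-- value at index `0` -/
def A0 (x d : ℕ) : ℕ := x * (x + 2 * d)

/-- value at index `1` -/
def A1 (x d : ℕ) : ℕ := x ^ 2 + (x + d) ^ 2

/-- what we need of an entry -/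
def Ent.Ok (e : Ent) : Prop :=
  e.q.Prime ∧ e.q < 1000000 ∧ 0 < e.m ∧ e.r < e.m ∧ e.q ∣ Nat.fib (2 * e.m) ∧
    e.q ∣ Nat.fib (2 * e.r) * A0 e.x e.d + Nat.fib (2 * e.r + 1) * A1 e.x e.d ∧
    ¬ e.q ∣ A0 e.x e.d + A1 e.x e.d

def t0 : Ent := ⟨2, 3, 1, 0, 1⟩
theorem t0_ok : t0.Ok := by
  refine ⟨?_, ?_, ?_, ?_, ?_, ?_, ?_⟩ <;> norm_num [t0, A0, A1]

def t1 : Ent := ⟨5, 5, 2, 0, 1⟩
theorem t1_ok : t1.Ok := by
  refine ⟨?_, ?_, ?_, ?_, ?_, ?_, ?_⟩ <;> norm_num [t1, A0, A1]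

def t2 : Ent := ⟨17, 9, 3, 5, 10⟩
theorem t2_ok : t2.Ok := by
  refine ⟨?_, ?_, ?_, ?_, ?_, ?_, ?_⟩ <;> norm_num [t2, A0, A1]

def t3 : Ent := ⟨41, 10, 3, 20, 32⟩
theorem t3_ok : t3.Ok := by
  refine ⟨?_, ?_, ?_, ?_, ?_, ?_, ?_⟩ <;> norm_num [t3, A0, A1]

def t4 : Ent := ⟨89, 11, 2, 57, 65⟩
theorem t4_ok : t4.Ok := by
  refine ⟨?_, ?_, ?_, ?_, ?_, ?_, ?_⟩ <;> norm_num [t4, A0, A1]

def t5 : Ent := ⟨61, 15, 5, 59, 40⟩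
theorem t5_ok : t5.Ok := by
  refine ⟨?_, ?_, ?_, ?_, ?_, ?_, ?_⟩ <;> norm_num [t5, A0, A1]

def t6 : Ent := ⟨2161, 20, 16, 1899, 367⟩
theorem t6_ok : t6.Ok := by
  refine ⟨?_, ?_, ?_, ?_, ?_, ?_, ?_⟩ <;> norm_num [t6, A0, A1]

def t7 : Ent := ⟨101, 25, 19, 99, 58⟩
theorem t7_ok : t7.Ok := by
  refine ⟨?_, ?_, ?_, ?_, ?_, ?_, ?_⟩ <;> norm_num [t7, A0, A1]

def t8 : Ent := ⟨3001, 25, 24, 3000, 1648⟩
theorem t8_ok : t8.Ok := by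
  refine ⟨?_, ?_, ?_, ?_, ?_, ?_, ?_⟩ <;> norm_num [t8, A0, A1]

def t9 : Ent := ⟨2521, 30, 11, 1100, 373⟩
theorem t9_ok : t9.Ok := by
  refine ⟨?_, ?_, ?_, ?_, ?_, ?_, ?_⟩ <;> norm_num [t9, A0, A1]

def t10 : Ent := ⟨19801, 33, 0, 1, 198⟩
theorem t10_ok : t10.Ok := by
  refine ⟨?_, ?_, ?_, ?_, ?_, ?_, ?_⟩ <;> norm_num [t10, A0, A1]

def t11 : Ent := ⟨9901, 33, 9, 5549, 5584⟩
theorem t11_ok : t11.Ok := by
  refine ⟨?_, ?_, ?_, ?_, ?_, ?_, ?_⟩ <;> norm_num [t11, A0, A1]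

def t12 : Ent := ⟨103681, 36, 18, 53073, 47820⟩
theorem t12_ok : t12.Ok := by
  refine ⟨?_, ?_, ?_, ?_, ?_, ?_, ?_⟩ <;> norm_num [t12, A0, A1]

def t13 : Ent := ⟨1601, 40, 28, 808, 968⟩
theorem t13_ok : t13.Ok := by
  refine ⟨?_, ?_, ?_, ?_, ?_, ?_, ?_⟩ <;> norm_num [t13, A0, A1]

def t14 : Ent := ⟨3041, 40, 8, 2026, 1933⟩
theorem t14_ok : t14.Ok := by
  refine ⟨?_, ?_, ?_, ?_, ?_, ?_, ?_⟩ <;> norm_num [t14, A0, A1]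

def t15 : Ent := ⟨881, 44, 6, 441, 605⟩
theorem t15_ok : t15.Ok := by
  refine ⟨?_, ?_, ?_, ?_, ?_, ?_, ?_⟩ <;> norm_num [t15, A0, A1]

def t16 : Ent := ⟨109441, 45, 15, 64966, 78062⟩
theorem t16_ok : t16.Ok := by
  refine ⟨?_, ?_, ?_, ?_, ?_, ?_, ?_⟩ <;> norm_num [t16, A0, A1]

def t17 : Ent := ⟨181, 45, 0, 1, 161⟩
theorem t17_ok : t17.Ok := by
  refine ⟨?_, ?_, ?_, ?_, ?_, ?_, ?_⟩ <;> norm_num [t17, A0, A1]

def t18 : Ent := ⟨541, 45, 14, 197, 294⟩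
theorem t18_ok : t18.Ok := by
  refine ⟨?_, ?_, ?_, ?_, ?_, ?_, ?_⟩ <;> norm_num [t18, A0, A1]

def t19 : Ent := ⟨401, 50, 9, 67, 387⟩
theorem t19_ok : t19.Ok := by
  refine ⟨?_, ?_, ?_, ?_, ?_, ?_, ?_⟩ <;> norm_num [t19, A0, A1]

def t20 : Ent := ⟨570601, 50, 39, 539398, 388709⟩
theorem t20_ok : t20.Ok := by
  refine ⟨?_, ?_, ?_, ?_, ?_, ?_, ?_⟩ <;> norm_num [t20, A0, A1]

def t21 : Ent := ⟨39161, 55, 21, 33488, 13551⟩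
theorem t21_ok : t21.Ok := by
  refine ⟨?_, ?_, ?_, ?_, ?_, ?_, ?_⟩ <;> norm_num [t21, A0, A1]

def t22 : Ent := ⟨474541, 55, 41, 201746, 238737⟩
theorem t22_ok : t22.Ok := by
  refine ⟨?_, ?_, ?_, ?_, ?_, ?_, ?_⟩ <;> norm_num [t22, A0, A1]

def t23 : Ent := ⟨661, 55, 51, 215, 108⟩
theorem t23_ok : t23.Ok := by
  refine ⟨?_, ?_, ?_, ?_, ?_, ?_, ?_⟩ <;> norm_num [t23, A0, A1]

def t24 : Ent := ⟨20641, 60, 38, 20457, 12439⟩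
theorem t24_ok : t24.Ok := by
  refine ⟨?_, ?_, ?_, ?_, ?_, ?_, ?_⟩ <;> norm_num [t24, A0, A1]

def t25 : Ent := ⟨241, 60, 26, 38, 117⟩
theorem t25_ok : t25.Ok := by
  refine ⟨?_, ?_, ?_, ?_, ?_, ?_, ?_⟩ <;> norm_num [t25, A0, A1]

def t26 : Ent := ⟨12301, 75, 29, 8753, 8815⟩
theorem t26_ok : t26.Ok := by
  refine ⟨?_, ?_, ?_, ?_, ?_, ?_, ?_⟩ <;> norm_num [t26, A0, A1]

def t27 : Ent := ⟨197, 99, 69, 71, 147⟩
theorem t27_ok : t27.Ok := by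
  refine ⟨?_, ?_, ?_, ?_, ?_, ?_, ?_⟩ <;> norm_num [t27, A0, A1]

def t28 : Ent := ⟨5281, 132, 78, 3433, 1378⟩
theorem t28_ok : t28.Ok := by
  refine ⟨?_, ?_, ?_, ?_, ?_, ?_, ?_⟩ <;> norm_num [t28, A0, A1]

def t29 : Ent := ⟨66529, 132, 114, 30329, 10241⟩
theorem t29_ok : t29.Ok := by
  refine ⟨?_, ?_, ?_, ?_, ?_, ?_, ?_⟩ <;> norm_num [t29, A0, A1]

def t30 : Ent := ⟨601, 150, 134, 372, 209⟩
theorem t30_ok : t30.Ok := by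
  refine ⟨?_, ?_, ?_, ?_, ?_, ?_, ?_⟩ <;> norm_num [t30, A0, A1]

def t31 : Ent := ⟨518101, 165, 126, 480051, 227921⟩
theorem t31_ok : t31.Ok := by
  refine ⟨?_, ?_, ?_, ?_, ?_, ?_, ?_⟩ <;> norm_num [t31, A0, A1]

def t32 : Ent := ⟨86461, 165, 111, 85200, 38936⟩
theorem t32_ok : t32.Ok := by
  refine ⟨?_, ?_, ?_, ?_, ?_, ?_, ?_⟩ <;> norm_num [t32, A0, A1]

def t33 : Ent := ⟨900241, 165, 6, 509510, 634938⟩
theorem t33_ok : t33.Ok := by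
  refine ⟨?_, ?_, ?_, ?_, ?_, ?_, ?_⟩ <;> norm_num [t33, A0, A1]

def t34 : Ent := ⟨8641, 180, 144, 4235, 6822⟩
theorem t34_ok : t34.Ok := by
  refine ⟨?_, ?_, ?_, ?_, ?_, ?_, ?_⟩ <;> norm_num [t34, A0, A1]

def t35 : Ent := ⟨124001, 200, 164, 16774, 30864⟩
theorem t35_ok : t35.Ok := by
  refine ⟨?_, ?_, ?_, ?_, ?_, ?_, ?_⟩ <;> norm_num [t35, A0, A1]

def t36 : Ent := ⟨221401, 225, 204, 185869, 4861⟩
theorem t36_ok : t36.Ok := by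
  refine ⟨?_, ?_, ?_, ?_, ?_, ?_, ?_⟩ <;> norm_num [t36, A0, A1]

def t37 : Ent := ⟨92401, 275, 164, 31805, 42392⟩
theorem t37_ok : t37.Ok := by
  refine ⟨?_, ?_, ?_, ?_, ?_, ?_, ?_⟩ <;> norm_num [t37, A0, A1]

def t38 : Ent := ⟨1201, 300, 14, 152, 79⟩
theorem t38_ok : t38.Ok := by
  refine ⟨?_, ?_, ?_, ?_, ?_, ?_, ?_⟩ <;> norm_num [t38, A0, A1]

def t39 : Ent := ⟨1321, 330, 81, 318, 1274⟩
theorem t39_ok : t39.Ok := by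
  refine ⟨?_, ?_, ?_, ?_, ?_, ?_, ?_⟩ <;> norm_num [t39, A0, A1]

def t40 : Ent := ⟨817081, 330, 201, 332068, 136047⟩
theorem t40_ok : t40.Ok := by
  refine ⟨?_, ?_, ?_, ?_, ?_, ?_, ?_⟩ <;> norm_num [t40, A0, A1]

def t41 : Ent := ⟨3169, 396, 294, 2921, 1550⟩
theorem t41_ok : t41.Ok := by
  refine ⟨?_, ?_, ?_, ?_, ?_, ?_, ?_⟩ <;> norm_num [t41, A0, A1]

def t42 : Ent := ⟨63361, 396, 150, 22371, 14521⟩
theorem t42_ok : t42.Ok := by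
  refine ⟨?_, ?_, ?_, ?_, ?_, ?_, ?_⟩ <;> norm_num [t42, A0, A1]

def t43 : Ent := ⟨21121, 440, 318, 3627, 17952⟩
theorem t43_ok : t43.Ok := by
  refine ⟨?_, ?_, ?_, ?_, ?_, ?_, ?_⟩ <;> norm_num [t43, A0, A1]

def t44 : Ent := ⟨1801, 450, 279, 284, 916⟩
theorem t44_ok : t44.Ok := by
  refine ⟨?_, ?_, ?_, ?_, ?_, ?_, ?_⟩ <;> norm_num [t44, A0, A1]

def t45 : Ent := ⟨3301, 825, 384, 3142, 2794⟩
theorem t45_ok : t45.Ok := by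
  refine ⟨?_, ?_, ?_, ?_, ?_, ?_, ?_⟩ <;> norm_num [t45, A0, A1]

def t46 : Ent := ⟨126001, 900, 384, 34165, 68455⟩
theorem t46_ok : t46.Ok := by
  refine ⟨?_, ?_, ?_, ?_, ?_, ?_, ?_⟩ <;> norm_num [t46, A0, A1]

def t47 : Ent := ⟨673201, 900, 764, 25827, 517238⟩
theorem t47_ok : t47.Ok := by
  refine ⟨?_, ?_, ?_, ?_, ?_, ?_, ?_⟩ <;> norm_num [t47, A0, A1]

def t48 : Ent := ⟨245521, 990, 258, 205096, 2723⟩
theorem t48_ok : t48.Ok := by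
  refine ⟨?_, ?_, ?_, ?_, ?_, ?_, ?_⟩ <;> norm_num [t48, A0, A1]

def t49 : Ent := ⟨127601, 1100, 434, 60638, 24991⟩
theorem t49_ok : t49.Ok := by
  refine ⟨?_, ?_, ?_, ?_, ?_, ?_, ?_⟩ <;> norm_num [t49, A0, A1]

def t50 : Ent := ⟨269281, 1320, 978, 77676, 143598⟩
theorem t50_ok : t50.Ok := by
  refine ⟨?_, ?_, ?_, ?_, ?_, ?_, ?_⟩ <;> norm_num [t50, A0, A1]

def t51 : Ent := ⟨14401, 1800, 1064, 12080, 2014⟩
theorem t51_ok : t51.Ok := by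
  refine ⟨?_, ?_, ?_, ?_, ?_, ?_, ?_⟩ <;> norm_num [t51, A0, A1]

def t52 : Ent := ⟨79201, 1800, 1464, 50006, 52735⟩
theorem t52_ok : t52.Ok := by
  refine ⟨?_, ?_, ?_, ?_, ?_, ?_, ?_⟩ <;> norm_num [t52, A0, A1]

def t53 : Ent := ⟨88001, 2200, 1314, 25176, 13553⟩
theorem t53_ok : t53.Ok := by
  refine ⟨?_, ?_, ?_, ?_, ?_, ?_, ?_⟩ <;> norm_num [t53, A0, A1]

def t54 : Ent := ⟨448801, 3300, 1314, 237920, 160558⟩
theorem t54_ok : t54.Ok := by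
  refine ⟨?_, ?_, ?_, ?_, ?_, ?_, ?_⟩ <;> norm_num [t54, A0, A1]

def tab : List Ent := [t0, t1, t2, t3, t4, t5, t6, t7, t8, t9, t10, t11, t12, t13, t14, t15, t16, t17, t18, t19, t20, t21, t22, t23, t24, t25, t26, t27, t28, t29, t30, t31, t32, t33, t34, t35, t36, t37, t38, t39, t40, t41, t42, t43, t44, t45, t46, t47, t48, t49, t50, t51, t52, t53, t54]

theorem tab_ok : ∀ e ∈ tab, e.Ok := by
  simp only [tab, List.forall_mem_cons, List.not_mem_nil, IsEmpty.forall_iff, implies_true, and_true]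
  exact ⟨t0_ok, t1_ok, t2_ok, t3_ok, t4_ok, t5_ok, t6_ok, t7_ok, t8_ok, t9_ok, t10_ok, t11_ok, t12_ok, t13_ok, t14_ok, t15_ok, t16_ok, t17_ok, t18_ok, t19_ok, t20_ok, t21_ok, t22_ok, t23_ok, t24_ok, t25_ok, t26_ok, t27_ok, t28_ok, t29_ok, t30_ok, t31_ok, t32_ok, t33_ok, t34_ok, t35_ok, t36_ok, t37_ok, t38_ok, t39_ok, t40_ok, t41_ok, t42_ok, t43_ok, t44_ok, t45_ok, t46_ok, t47_ok, t48_ok, t49_ok, t50_ok, t51_ok, t52_ok, t53_ok, t54_ok⟩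

theorem tab_nodup : (tab.map Ent.q).Nodup := by
  decide +kernel

def covered (j : ℕ) : Bool := tab.any (fun e => Nat.beq (j % e.m) e.r)

def chk : ℕ → ℕ → Bool
  | 0, lo => covered lo
  | k + 1, lo => chk k lo && chk k (lo + 2 ^ k)

theorem chk_true : chk 15 0 = true := by
  decide +kernel

theorem chk_spec : ∀ (k lo : ℕ), chk k lo = true → ∀ j, lo ≤ j → j < lo + 2 ^ k →
    covered j = true := by
  intro k
  induction k with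
  | zero =>
    intro lo h j h1 h2
    have : j = lo := by
      have : 2 ^ 0 = 1 := rfl
      omega
    subst this
    simpa [chk] using h
  | succ k ih =>
    intro lo h j h1 h2
    simp only [chk, Bool.and_eq_true] at h
    rcases lt_or_ge j (lo + 2 ^ k) with hj | hj
    · exact ih lo h.1 j h1 hj
    · refine ih (lo + 2 ^ k) h.2 j hj ?_
      have : 2 ^ (k + 1) = 2 ^ k + 2 ^ k := by ring
      omega

theorem tab_dvd : ∀ e ∈ tab, e.m ∣ 19800 := by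
  decide +kernel

theorem exists_entry (j : ℕ) : ∃ e ∈ tab, j % e.m = e.r := by
  have h := chk_spec 15 0 chk_true (j % 19800) (Nat.zero_le _)
    (by have := Nat.mod_lt j (by norm_num : 0 < 19800); omega)
  unfold covered at h
  rw [List.any_eq_true] at h
  obtain ⟨e, he, h2⟩ := h
  refine ⟨e, he, ?_⟩
  have h3 := Nat.eq_of_beq_eq_true h2
  rw [Nat.mod_mod_of_dvd _ (tab_dvd e he)] at h3
  exact h3

end Pool.Agent.R720.CompFib
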