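import Mathlib
import Pool.Agent.R720.CompFibTable

/-! Sequences with the Fibonacci recurrence all of whose terms are composite. -/

namespace Pool.Agent.R720.CompFib

/-- the sequence with the Fibonacci recurrence and starting values `a`, `b` -/
def gib (a b : ℕ) : ℕ → ℕ
  | 0 => a
  | 1 => b
  | n + 2 => gib a b (n + 1) + gib a b n

theorem gib_succ (a b : ℕ) : ∀ n, gib a b (n + 1) = Nat.fib n * a + Nat.fib (n + 1) * b
  | 0 => by simp [gib]
  | 1 => by simp [gib, Nat.fib_add_two]; ring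
  | n + 2 => by
    have h1 := gib_succ a b n
    have h2 := gib_succ a b (n + 1)
    have : gib a b (n + 2 + 1) = gib a b (n + 2) + gib a b (n + 1) := rfl
    rw [this, h1, h2, Nat.fib_add_two (n := n + 1), Nat.fib_add_two (n := n)]
    ring

theorem gib_add (a b n : ℕ) : ∀ s, gib a b (n + 1 + s) =
    Nat.fib (s + 1) * gib a b (n + 1) + Nat.fib s * gib a b n
  | 0 => by simp
  | 1 => by
    have : gib a b (n + 1 + 1) = gib a b (n + 1) + gib a b n := rfl
    rw [this]; simp
  | s + 2 => by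
    have h1 := gib_add a b n s
    have h2 := gib_add a b n (s + 1)
    have : gib a b (n + 1 + (s + 2)) = gib a b (n + 1 + (s + 1)) + gib a b (n + 1 + s) := rfl
    rw [this, h1, h2, Nat.fib_add_two (n := s + 1), Nat.fib_add_two (n := s)]
    ring

theorem gib_uv (x d : ℕ) : ∀ j, gib x (x + d) j + gib (x + 2 * d) (3 * x + d) j
    = 2 * gib x (x + d) (j + 1)
  | 0 => by simp [gib]; ring
  | 1 => by simp [gib]; ring
  | j + 2 => by
    have h1 := gib_uv x d j
    have h2 := gib_uv x d (j + 1)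
    have e1 : gib x (x + d) (j + 2) = gib x (x + d) (j + 1) + gib x (x + d) j := rfl
    have e2 : gib (x + 2 * d) (3 * x + d) (j + 2) = gib (x + 2 * d) (3 * x + d) (j + 1)
      + gib (x + 2 * d) (3 * x + d) j := rfl
    have e3 : gib x (x + d) (j + 2 + 1) = gib x (x + d) (j + 2) + gib x (x + d) (j + 1) := rfl
    rw [e1] at h2
    rw [e3, e1, e2]
    omega

theorem gib_main (x d : ℕ) : ∀ j, gib (A0 x d) (A1 x d) (2 * j)
      = gib x (x + d) j * gib (x + 2 * d) (3 * x + d) j ∧
    gib (A0 x d) (A1 x d) (2 * j + 1) = gib x (x + d) j ^ 2 + gib x (x + d) (j + 1) ^ 2 := by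
  intro j
  induction j with
  | zero => simp [gib, A0, A1]
  | succ j ih =>
    obtain ⟨h1, h2⟩ := ih
    have e0 : gib x (x + d) (j + 2) = gib x (x + d) (j + 1) + gib x (x + d) j := rfl
    have hv := gib_uv x d j
    have hv' := gib_uv x d (j + 1)
    rw [show j + 1 + 1 = j + 2 from rfl, e0] at hv'
    have e1 : gib (A0 x d) (A1 x d) (2 * (j + 1)) = gib (A0 x d) (A1 x d) (2 * j + 1)
      + gib (A0 x d) (A1 x d) (2 * j) := rfl
    have e2 : gib (A0 x d) (A1 x d) (2 * (j + 1) + 1) = gib (A0 x d) (A1 x d) (2 * (j + 1))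
      + gib (A0 x d) (A1 x d) (2 * j + 1) := rfl
    set u := gib x (x + d) j
    set u' := gib x (x + d) (j + 1)
    set v := gib (x + 2 * d) (3 * x + d) j
    set v' := gib (x + 2 * d) (3 * x + d) (j + 1)
    have hv3 : v' = u' + 2 * u := by omega
    have k1 : gib (A0 x d) (A1 x d) (2 * (j + 1)) = u' * v' := by
      rw [e1, h1, h2, hv3]
      have : u * v + u ^ 2 = 2 * (u * u') := by
        have : u * (u + v) = u * (2 * u') := by rw [hv]
        nlinarith
      nlinarith
    refine ⟨k1, ?_⟩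
    rw [e2, k1, h2, hv3, show j + 1 + 1 = j + 2 from rfl, e0]
    ring

theorem gib_ge (a b c : ℕ) (ha : c ≤ a) (hb : c ≤ b) : ∀ n, c ≤ gib a b n
  | 0 => ha
  | 1 => hb
  | n + 2 => by
    have h1 := gib_ge a b c ha hb n
    have : gib a b (n + 2) = gib a b (n + 1) + gib a b n := rfl
    omega

theorem gib_congr (p : ℕ) {a b a' b' : ℕ} (ha : a ≡ a' [MOD p]) (hb : b ≡ b' [MOD p]) :
    ∀ n, gib a b n ≡ gib a' b' n [MOD p]
  | 0 => ha
  | 1 => hb
  | n + 2 => (gib_congr p ha hb (n + 1)).add (gib_congr p ha hb n)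

theorem A_congr (p : ℕ) {x d x' d' : ℕ} (hx : x ≡ x' [MOD p]) (hd : d ≡ d' [MOD p]) (n : ℕ) :
    gib (A0 x d) (A1 x d) n ≡ gib (A0 x' d') (A1 x' d') n [MOD p] := by
  apply gib_congr
  · exact hx.mul (hx.add (hd.mul_left 2))
  · exact (hx.pow 2).add ((hx.add hd).pow 2)

/-- the Lucas numbers -/
def luc : ℕ → ℕ := gib 2 1

theorem luc_coprime : ∀ j, Nat.Coprime (luc j) (luc (j + 1))
  | 0 => by simp [luc, gib]
  | j + 1 => by
    have h := luc_coprime j
    have e : luc (j + 1 + 1) = luc (j + 1) + luc j := rfl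
    rw [e]
    simpa using h.symm

theorem u_lin (x d : ℕ) : ∀ j, gib x (x + d) j = Nat.fib (j + 1) * x + Nat.fib j * d
  | 0 => by simp [gib]
  | 1 => by simp [gib]
  | j + 2 => by
    have h1 := u_lin x d j
    have h2 := u_lin x d (j + 1)
    have e : gib x (x + d) (j + 2) = gib x (x + d) (j + 1) + gib x (x + d) j := rfl
    rw [e, h1, h2, Nat.fib_add_two (n := j + 1), Nat.fib_add_two (n := j)]
    ring

theorem v_lin (x d : ℕ) : ∀ j, gib (x + 2 * d) (3 * x + d) j = luc (j + 1) * x + luc j * d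
  | 0 => by simp [gib, luc]
  | 1 => by simp [gib, luc]
  | j + 2 => by
    have h1 := v_lin x d j
    have h2 := v_lin x d (j + 1)
    have e : gib (x + 2 * d) (3 * x + d) (j + 2) = gib (x + 2 * d) (3 * x + d) (j + 1)
      + gib (x + 2 * d) (3 * x + d) j := rfl
    have e1 : luc (j + 2) = luc (j + 1) + luc j := rfl
    have e2 : luc (j + 2 + 1) = luc (j + 2) + luc (j + 1) := rfl
    rw [e, h1, h2, e2, e1]
    ring

/-- shift as a permutation -/
def shiftPerm (W : ℕ) : Equiv.Perm (ZMod W × ZMod W) where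
  toFun z := (z.2, z.2 + z.1)
  invFun z := (z.2 - z.1, z.1)
  left_inv z := by simp
  right_inv z := by simp

theorem shift_pow (W a b : ℕ) : ∀ n, ((shiftPerm W) ^ n) ((a : ZMod W), (b : ZMod W))
    = ((gib a b n : ZMod W), (gib a b (n + 1) : ZMod W)) := by
  intro n
  induction n with
  | zero => simp [gib]
  | succ n ih =>
    rw [pow_succ', Equiv.Perm.mul_apply, ih]
    have e : gib a b (n + 1 + 1) = gib a b (n + 1) + gib a b n := rfl
    rw [e]
    simp [shiftPerm]

theorem exists_period (W : ℕ) (hW : 0 < W) : ∃ M, 0 < M ∧ ∀ a b k t,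
    gib a b (k + t * M) ≡ gib a b k [MOD W] := by
  haveI : NeZero W := ⟨hW.ne'⟩
  refine ⟨orderOf (shiftPerm W), orderOf_pos _, ?_⟩
  intro a b k t
  have h1 := shift_pow W a b (k + t * orderOf (shiftPerm W))
  have h2 := shift_pow W a b k
  have h3 : (shiftPerm W) ^ (k + t * orderOf (shiftPerm W)) = (shiftPerm W) ^ k := by
    rw [pow_add, mul_comm t, pow_mul, pow_orderOf_eq_one, one_pow, mul_one]
  rw [h3, h2] at h1
  have h4 := congrArg Prod.fst h1
  exact ((ZMod.natCast_eq_natCast_iff _ _ _).1 h4).symm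

open Polynomial in
theorem exists_good (p : ℕ) (hp : p.Prime) (B : ℕ) (hB : 2 * B + 2 < p) (J : ℕ → ℕ) :
    ∃ x : ℕ, ∀ i ≤ B, ¬ p ∣ gib (A0 x 1) (A1 x 1) (2 * J i) := by
  haveI : Fact p.Prime := ⟨hp⟩
  let f : (ZMod p)[X] := ∏ i ∈ Finset.range (B + 1),
    ((C (Nat.fib (J i + 1) : ZMod p) * X + C (Nat.fib (J i) : ZMod p)) *
      (C (luc (J i + 1) : ZMod p) * X + C (luc (J i) : ZMod p)))
  have hlin : ∀ a b : ℕ, Nat.Coprime a b → (C (b : ZMod p) * X + C (a : ZMod p)) ≠ 0 := by
    intro a b hab h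
    have h0 := congrArg (fun g => coeff g 0) h
    have h1 := congrArg (fun g => coeff g 1) h
    simp at h0 h1
    rw [ZMod.natCast_eq_zero_iff] at h0 h1
    have := Nat.dvd_gcd h0 h1
    rw [hab] at this
    exact hp.one_lt.ne' (Nat.dvd_one.1 this)
  have hf : f ≠ 0 := by
    refine Finset.prod_ne_zero_iff.2 ?_
    intro i _
    exact mul_ne_zero (hlin _ _ (Nat.fib_coprime_fib_succ _)) (hlin _ _ (luc_coprime _))
  have hdeg : f.natDegree < Nat.card (ZMod p) := by
    rw [Nat.card_zmod]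
    refine lt_of_le_of_lt (natDegree_prod_le _ _) ?_
    refine lt_of_le_of_lt (Finset.sum_le_card_nsmul _ _ 2 ?_) ?_
    · intro i _
      refine natDegree_mul_le.trans ?_
      have h1 := natDegree_linear_le (a := (Nat.fib (J i + 1) : ZMod p))
        (b := (Nat.fib (J i) : ZMod p))
      have h2 := natDegree_linear_le (a := (luc (J i + 1) : ZMod p))
        (b := (luc (J i) : ZMod p))
      omega
    · simp
      omega
  obtain ⟨r, hr⟩ := exists_eval_ne_zero_of_natDegree_lt_card f hf (by simpa using hdeg)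
  refine ⟨r.val, fun i hi h => hr ?_⟩
  rw [(gib_main _ _ _).1, u_lin, v_lin] at h
  rw [hp.dvd_mul] at h
  rw [eval_prod]
  refine Finset.prod_eq_zero (Finset.mem_range.2 (Nat.lt_succ_of_le hi)) ?_
  rw [eval_mul]
  have hrv : ((r.val : ℕ) : ZMod p) = r := ZMod.natCast_zmod_val r
  rcases h with h | h
  · have h' := (ZMod.natCast_eq_zero_iff _ _).2 h
    push_cast at h'
    rw [hrv] at h'
    simp [h']
    left
    linear_combination h'
  · have h' := (ZMod.natCast_eq_zero_iff _ _).2 h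
    push_cast at h'
    rw [hrv] at h'
    simp
    right
    linear_combination h'

end Pool.Agent.R720.CompFib
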