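import Mathlib
import Pool.Agent.R720.CompFib

/-! Choice of the starting values. -/

namespace Pool.Agent.R720.CompFib

theorem gib_two (a b : ℕ) : gib a b 2 = b + a := rfl

/-- residues for one prime -/
theorem exists_res (B M R : ℕ) (hR : 2 * B + 2 < R) (hR' : 1000000 ≤ R)
    (hper : ∀ a b k t p, p.Prime → p ≤ R → gib a b (k + t * M) ≡ gib a b k [MOD p])
    (p : ℕ) (hp : p.Prime) : ∃ x d : ℕ,
    (∀ i ≤ B, ¬ p ∣ gib (A0 x d) (A1 x d) (2 * (1 + i * M))) ∧
    (∀ e ∈ tab, e.q = p → p ∣ gib (A0 x d) (A1 x d) (2 * e.r + 1)) := by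
  have key : ∀ a b i, p ≤ R → gib a b (2 * (1 + i * M)) ≡ b + a [MOD p] := by
    intro a b i hpR
    have := hper a b 2 (2 * i) p hp hpR
    rw [gib_two] at this
    rw [show 2 * (1 + i * M) = 2 + 2 * i * M by ring]
    exact this
  by_cases h : ∃ e ∈ tab, e.q = p
  · obtain ⟨e, he, hep⟩ := h
    obtain ⟨o1, o2, o3, o4, o5, o6, o7⟩ := tab_ok e he
    have hpR : p ≤ R := by omega
    refine ⟨e.x, e.d, ?_, ?_⟩
    · intro i _ hdvd
      have h1 := (key (A0 e.x e.d) (A1 e.x e.d) i hpR).dvd_iff (dvd_refl p)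
      rw [h1] at hdvd
      rw [add_comm] at hdvd
      rw [hep] at o7
      exact o7 hdvd
    · intro e' he' hep'
      have : e' = e := List.inj_on_of_nodup_map tab_nodup he' he (hep'.trans hep.symm)
      subst this
      rw [gib_succ, ← hep]
      exact o6
  · rcases le_or_gt p R with hpR | hpR
    · refine ⟨0, 1, ?_, ?_⟩
      · intro i _ hdvd
        have h1 := (key (A0 0 1) (A1 0 1) i hpR).dvd_iff (dvd_refl p)
        rw [h1] at hdvd
        simp [A0, A1] at hdvd
        exact hp.one_lt.ne' hdvd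
      · intro e he hep
        exact absurd ⟨e, he, hep⟩ h
    · obtain ⟨x, hx⟩ := exists_good p hp B (by omega) (fun i => 1 + i * M)
      refine ⟨x, 1, hx, ?_⟩
      intro e he hep
      exact absurd ⟨e, he, hep⟩ h

theorem exists_coprime_add (x d W : ℕ) (hx : 0 < x)
    (h : ∀ p, p.Prime → p ∣ x → p ∣ W → ¬ p ∣ d) : ∃ t, Nat.Coprime x (d + W * t) := by
  classical
  let t := ∏ p ∈ x.primeFactors.filter (fun p => ¬ p ∣ d), p
  refine ⟨t, ?_⟩
  refine Nat.Coprime.symm (Nat.coprime_of_dvd ?_)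
  intro p hp h1 h2
  by_cases hpd : p ∣ d
  · have h3 : p ∣ W * t := (Nat.dvd_add_right hpd).1 h1
    rcases (hp.dvd_mul).1 h3 with h4 | h4
    · exact h p hp h2 h4 hpd
    · have h5 := (Prime.dvd_finset_prod_iff hp.prime _).1 h4
      obtain ⟨r, hr, hpr⟩ := h5
      rw [Finset.mem_filter] at hr
      have hrp : r.Prime := Nat.prime_of_mem_primeFactors hr.1
      have : p = r := (Nat.prime_dvd_prime_iff_eq hp hrp).1 hpr
      exact hr.2 (this ▸ hpd)
  · have h3 : p ∣ t := Finset.dvd_prod_of_mem _ (by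
      rw [Finset.mem_filter]
      exact ⟨Nat.mem_primeFactors.2 ⟨hp, h2, hx.ne'⟩, hpd⟩)
    exact hpd ((Nat.dvd_add_left (h3.mul_left W)).1 h1)

theorem coprime_start (x d p : ℕ) (hp : p.Prime) (hp5 : 5 < p) (hxd : Nat.Coprime x d)
    (h0 : p ∣ A0 x d) (h1 : p ∣ A1 x d) : False := by
  unfold A0 at h0
  unfold A1 at h1
  have hnot : ¬ (p ∣ x ∧ p ∣ d) := by
    rintro ⟨h2, h3⟩
    have := Nat.dvd_gcd h2 h3
    rw [hxd] at this
    exact hp.one_lt.ne' (Nat.dvd_one.1 this)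
  rcases (hp.dvd_mul).1 h0 with h2 | h2
  · have h3 : p ∣ (x + d) ^ 2 := (Nat.dvd_add_right (dvd_pow h2 two_ne_zero)).1 h1
    have h4 := hp.dvd_of_dvd_pow h3
    exact hnot ⟨h2, (Nat.dvd_add_right h2).1 h4⟩
  · have e : (x ^ 2 + (x + d) ^ 2 : ℤ) = (x + 2 * d) * (2 * x - 2 * d) + 5 * (d * d) := by ring
    have h3 : (p : ℤ) ∣ (x ^ 2 + (x + d) ^ 2 : ℤ) := by exact_mod_cast h1
    have h4 : (p : ℤ) ∣ (x + 2 * d : ℤ) := by exact_mod_cast h2
    rw [e] at h3
    have h5 : (p : ℤ) ∣ 5 * (d * d) := (Int.dvd_add_right (h4.mul_right _)).1 h3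
    have h6 : p ∣ 5 * (d * d) := by exact_mod_cast h5
    have hd : p ∣ d := by
      rcases (hp.dvd_mul).1 h6 with h7 | h7
      · exact absurd (Nat.le_of_dvd (by norm_num) h7) (by omega)
      · rcases (hp.dvd_mul).1 h7 with h8 | h8 <;> exact h8
    exact hnot ⟨(Nat.dvd_add_left (hd.mul_left 2)).1 h2, hd⟩

/-- two consecutive terms divisible by `p` force all earlier terms divisible -/
theorem descend (a b p : ℕ) : ∀ n, p ∣ gib a b n → p ∣ gib a b (n + 1) → p ∣ a ∧ p ∣ b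
  | 0, h0, h1 => ⟨h0, h1⟩
  | n + 1, h0, h1 => by
    have e : gib a b (n + 1 + 1) = gib a b (n + 1) + gib a b n := rfl
    rw [e] at h1
    exact descend a b p n ((Nat.dvd_add_right h0).1 h1) h0

/-- The main construction. -/
theorem main (B : ℕ) : ∃ a : ℕ → ℕ, (∀ n, a (n + 2) = a (n + 1) + a n) ∧
    (∀ k, 1 < a k ∧ ¬ (a k).Prime) ∧
    (∀ n : ℕ, 1 < n → (n.primeFactors.filter (fun p => B < p)).card ≤ B →
      ∃ k, Nat.gcd n (a k) = 1) := by
  classical
  obtain ⟨R, hR1, hR2⟩ : ∃ R, 2 * B + 2 < R ∧ 1000000 ≤ R := ⟨2 * B + 1000003, by omega, by omega⟩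
  obtain ⟨M, hM0, hM⟩ := exists_period (Nat.factorial R) (Nat.factorial_pos R)
  have hper : ∀ a b k t p, p.Prime → p ≤ R → gib a b (k + t * M) ≡ gib a b k [MOD p] := by
    intro a b k t p hp hpR
    exact (hM a b k t).of_dvd ((hp.dvd_factorial).2 hpR)
  have hres := exists_res B M R hR1 hR2 hper
  have hres' : ∀ p, ∃ x d : ℕ, p.Prime →
      (∀ i ≤ B, ¬ p ∣ gib (A0 x d) (A1 x d) (2 * (1 + i * M))) ∧
      (∀ e ∈ tab, e.q = p → p ∣ gib (A0 x d) (A1 x d) (2 * e.r + 1)) := by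
    intro p
    by_cases hp : p.Prime
    · obtain ⟨x, d, h⟩ := hres p hp
      exact ⟨x, d, fun _ => h⟩
    · exact ⟨0, 0, fun h => absurd h hp⟩
  choose xr dr hxd using hres'
  obtain ⟨X, hX⟩ : ∃ X, X = R + Nat.fib (2 * (B * M)) := ⟨_, rfl⟩
  let S : Finset ℕ := (Finset.range (X + 1)).filter Nat.Prime
  have hS : ∀ p, p.Prime → p ≤ X → p ∈ S := by
    intro p hp hpX
    simp only [S, Finset.mem_filter, Finset.mem_range]
    exact ⟨by omega, hp⟩
  have hSp : ∀ p ∈ S, p.Prime := by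
    intro p hp
    simp only [S, Finset.mem_filter] at hp
    exact hp.2
  have hpw : Set.Pairwise (S : Set ℕ) (Function.onFun Nat.Coprime (fun p : ℕ => p)) := by
    intro p hp q hq hpq
    exact (Nat.coprime_primes (hSp p hp) (hSp q hq)).2 hpq
  obtain ⟨x0, hx0⟩ := Nat.chineseRemainderOfFinset xr (fun p => p) S
    (fun p hp => (hSp p hp).ne_zero) hpw
  obtain ⟨d0, hd0⟩ := Nat.chineseRemainderOfFinset dr (fun p => p) S
    (fun p hp => (hSp p hp).ne_zero) hpw
  obtain ⟨W, hWdef⟩ : ∃ W, W = ∏ p ∈ S, p := ⟨_, rfl⟩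
  have hW0 : 0 < W := by
    rw [hWdef]
    exact Finset.prod_pos (fun p hp => (hSp p hp).pos)
  have hWd : ∀ p ∈ S, p ∣ W := by
    intro p hp
    rw [hWdef]
    exact Finset.dvd_prod_of_mem _ hp
  obtain ⟨x, hxdef⟩ : ∃ x, x = x0 + W * 1000000 := ⟨_, rfl⟩
  have hxbig : 1000000 ≤ x := by nlinarith
  have hxm : ∀ p ∈ S, x ≡ xr p [MOD p] := by
    intro p hp
    have h1 : x ≡ x0 [MOD p] := by
      rw [hxdef]
      have : W * 1000000 ≡ 0 [MOD p] := (Nat.modEq_zero_iff_dvd).2 ((hWd p hp).mul_right _)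
      simpa using (Nat.ModEq.refl x0).add this
    exact h1.trans (hx0 p hp)
  have hWprime : ∀ p, p.Prime → p ∣ W → p ∈ S := by
    intro p hp hpW
    rw [hWdef] at hpW
    obtain ⟨r, hr, hpr⟩ := (Prime.dvd_finset_prod_iff hp.prime _).1 hpW
    have : p = r := (Nat.prime_dvd_prime_iff_eq hp (hSp r hr)).1 hpr
    exact this ▸ hr
  obtain ⟨t, ht⟩ := exists_coprime_add x d0 W (by omega) (by
    intro p hp hpx hpW hpd
    have hpS := hWprime p hp hpW
    refine (hxd p hp).1 0 (Nat.zero_le _) ?_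
    have c1 : xr p ≡ 0 [MOD p] := (hxm p hpS).symm.trans ((Nat.modEq_zero_iff_dvd).2 hpx)
    have c2 : dr p ≡ 0 [MOD p] := (hd0 p hpS).symm.trans ((Nat.modEq_zero_iff_dvd).2 hpd)
    have c3 := A_congr p c1 c2 (2 * (1 + 0 * M))
    rw [(c3.dvd_iff (dvd_refl p))]
    simp [gib, A0, A1])
  obtain ⟨d, hddef⟩ : ∃ d, d = d0 + W * t := ⟨_, rfl⟩
  have hdm : ∀ p ∈ S, d ≡ dr p [MOD p] := by
    intro p hp
    have h1 : d ≡ d0 [MOD p] := by
      rw [hddef]
      have : W * t ≡ 0 [MOD p] := (Nat.modEq_zero_iff_dvd).2 ((hWd p hp).mul_right _)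
      simpa using (Nat.ModEq.refl d0).add this
    exact h1.trans (hd0 p hp)
  have hcop : Nat.Coprime x d := by rw [hddef]; exact ht
  -- the sequence
  have hgood : ∀ p, p.Prime → p ≤ X → ∀ i ≤ B,
      ¬ p ∣ gib (A0 x d) (A1 x d) (2 * (1 + i * M)) := by
    intro p hp hpX i hi h
    have hpS := hS p hp hpX
    have c3 := A_congr p (hxm p hpS) (hdm p hpS) (2 * (1 + i * M))
    rw [c3.dvd_iff (dvd_refl p)] at h
    exact (hxd p hp).1 i hi h
  refine ⟨gib (A0 x d) (A1 x d), fun n => rfl, ?_, ?_⟩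
  · intro k
    have hu : ∀ j, 1000000 ≤ gib x (x + d) j := gib_ge _ _ _ hxbig (by omega)
    have hv : ∀ j, 1000000 ≤ gib (x + 2 * d) (3 * x + d) j :=
      gib_ge _ _ _ (by omega) (by omega)
    rcases Nat.even_or_odd' k with ⟨j, hj | hj⟩
    · rw [hj, (gib_main x d j).1]
      have h1 := hu j
      have h2 := hv j
      exact ⟨by nlinarith, Nat.not_prime_mul (by omega) (by omega)⟩
    · obtain ⟨e, he, hje⟩ := exists_entry j
      obtain ⟨o1, o2, o3, o4, o5, o6, o7⟩ := tab_ok e he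
      have hqS : e.q ∈ S := hS _ o1 (by omega)
      have hdiv : e.q ∣ gib (A0 x d) (A1 x d) k := by
        have h1 : e.q ∣ gib (A0 x d) (A1 x d) (2 * e.r + 1) := by
          have c3 := A_congr e.q (hxm _ hqS) (hdm _ hqS) (2 * e.r + 1)
          rw [c3.dvd_iff (dvd_refl _)]
          exact (hxd e.q o1).2 e he rfl
        have h2 : k = 2 * e.r + 1 + 2 * e.m * (j / e.m) := by
          have := Nat.div_add_mod j e.m
          rw [hje] at this
          rw [hj]
          nlinarith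
        rw [h2, gib_add]
        refine Nat.dvd_add (h1.mul_left _) ?_
        exact ((o5.trans (Nat.fib_dvd _ _ (Nat.dvd_mul_right _ _)))).mul_right _
      have hbig : 1000000 < gib (A0 x d) (A1 x d) k := by
        rw [hj, (gib_main x d j).2]
        have h1 := hu j
        have h2 := hu (j + 1)
        nlinarith
      refine ⟨by omega, fun hprime => ?_⟩
      have := (Nat.prime_dvd_prime_iff_eq o1 hprime).1 hdiv
      omega
  · intro n hn hcard
    by_contra hno
    push Not at hno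
    have hex : ∀ i : Fin (B + 1), ∃ p, p.Prime ∧ p ∣ n ∧
        p ∣ gib (A0 x d) (A1 x d) (2 * (1 + i * M)) := by
      intro i
      obtain ⟨p, hp, h1, h2⟩ := Nat.Prime.not_coprime_iff_dvd.1 (hno (2 * (1 + i * M)))
      exact ⟨p, hp, h1, h2⟩
    choose P hP1 hP2 hP3 using hex
    have hPX : ∀ i, X < P i := by
      intro i
      by_contra hle
      exact hgood (P i) (hP1 i) (by omega) i (by omega) (hP3 i)
    have hmaps : ∀ i ∈ (Finset.univ : Finset (Fin (B + 1))),
        P i ∈ n.primeFactors.filter (fun p => B < p) := by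
      intro i _
      rw [Finset.mem_filter]
      refine ⟨Nat.mem_primeFactors.2 ⟨hP1 i, hP2 i, by omega⟩, ?_⟩
      have := hPX i
      omega
    obtain ⟨i, _, i', _, hii, hPP⟩ := Finset.exists_ne_map_eq_of_card_lt_of_maps_to
      (s := (Finset.univ : Finset (Fin (B + 1))))
      (t := n.primeFactors.filter (fun p => B < p)) (by simp; omega) hmaps
    have main2 : ∀ i i' : Fin (B + 1), i < i' → P i = P i' → False := by
      intro i i' hlt hPP
      have hp := hP1 i
      have h1 := hP3 i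
      have h2 := hP3 i'
      rw [← hPP] at h2
      have hlt' : (i : ℕ) < i' := hlt
      obtain ⟨s, hs⟩ : ∃ s, (i' : ℕ) = i + s := ⟨i' - i, by omega⟩
      have hs0 : 0 < s := by omega
      have hsB : s ≤ B := by omega
      have e1 : 2 * (1 + (i : ℕ) * M) = (2 * (i * M) + 1) + 1 := by ring
      have e2 : 2 * (1 + (i' : ℕ) * M) = (2 * (i * M) + 1) + 1 + 2 * (s * M) := by
        rw [hs]; ring
      rw [e2, gib_add, ← e1] at h2
      have h3 : P i ∣ Nat.fib (2 * (s * M)) * gib (A0 x d) (A1 x d) (2 * (i * M) + 1) :=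
        (Nat.dvd_add_right (h1.mul_left _)).1 h2
      have hlarge := hPX i
      rcases (hp.dvd_mul).1 h3 with h4 | h4
      · have hpos : 0 < Nat.fib (2 * (s * M)) := Nat.fib_pos.2 (by positivity)
        have h5 := Nat.le_of_dvd hpos h4
        have h6 : Nat.fib (2 * (s * M)) ≤ Nat.fib (2 * (B * M)) :=
          Nat.fib_mono (Nat.mul_le_mul_left 2 (Nat.mul_le_mul_right M hsB))
        omega
      · rw [e1] at h1
        obtain ⟨h5, h6⟩ := descend _ _ _ _ h4 h1
        exact coprime_start x d (P i) hp (by omega) hcop h5 h6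
    rcases lt_or_gt_of_ne hii with h | h
    · exact main2 i i' h hPP
    · exact main2 i' i h hPP.symm

end Pool.Agent.R720.CompFib
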