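import Pool.Agent.R720.Gen

/-!
# The extraspecial group of order `128`
-/

namespace Pool.Agent.R720.BC

/-- The Heisenberg group over the field with two elements of order `2 ^ 7`, an extraspecial
group. -/
@[ext] structure E where
  /-- coordinate -/
  a1 : Bool
  /-- coordinate -/
  a2 : Bool
  /-- coordinate -/
  a3 : Bool
  /-- coordinate -/
  b1 : Bool
  /-- coordinate -/
  b2 : Bool
  /-- coordinate -/
  b3 : Bool
  /-- coordinate -/
  c : Bool
deriving DecidableEq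

namespace E

/-- The group as a product of sets. -/
def eqv : (Bool × Bool × Bool × Bool × Bool × Bool × Bool) ≃ E where
  toFun x := ⟨x.1, x.2.1, x.2.2.1, x.2.2.2.1, x.2.2.2.2.1, x.2.2.2.2.2.1, x.2.2.2.2.2.2⟩
  invFun x := ⟨x.a1, x.a2, x.a3, x.b1, x.b2, x.b3, x.c⟩
  left_inv _ := rfl
  right_inv _ := rfl

instance : Fintype E := Fintype.ofEquiv _ eqv

instance : Mul E := ⟨fun x y => ⟨x.a1 ^^ y.a1, x.a2 ^^ y.a2, x.a3 ^^ y.a3, x.b1 ^^ y.b1,
  x.b2 ^^ y.b2, x.b3 ^^ y.b3,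
  x.c ^^ y.c ^^ (x.a1 && y.b1) ^^ (x.a2 && y.b2) ^^ (x.a3 && y.b3)⟩⟩

instance : One E := ⟨⟨false, false, false, false, false, false, false⟩⟩

instance : Inv E := ⟨fun x => ⟨x.a1, x.a2, x.a3, x.b1, x.b2, x.b3,
  x.c ^^ (x.a1 && x.b1) ^^ (x.a2 && x.b2) ^^ (x.a3 && x.b3)⟩⟩

theorem mul_def (x y : E) : x * y = ⟨x.a1 ^^ y.a1, x.a2 ^^ y.a2, x.a3 ^^ y.a3, x.b1 ^^ y.b1,
  x.b2 ^^ y.b2, x.b3 ^^ y.b3,
  x.c ^^ y.c ^^ (x.a1 && y.b1) ^^ (x.a2 && y.b2) ^^ (x.a3 && y.b3)⟩ := rfl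

theorem one_def : (1 : E) = ⟨false, false, false, false, false, false, false⟩ := rfl

theorem inv_def (x : E) : x⁻¹ = ⟨x.a1, x.a2, x.a3, x.b1, x.b2, x.b3,
  x.c ^^ (x.a1 && x.b1) ^^ (x.a2 && x.b2) ^^ (x.a3 && x.b3)⟩ := rfl

theorem mul_assoc' (x y z : E) : x * y * z = x * (y * z) := by
  obtain ⟨a1, a2, a3, b1, b2, b3, c⟩ := x
  obtain ⟨a1', a2', a3', b1', b2', b3', c'⟩ := y
  obtain ⟨a1'', a2'', a3'', b1'', b2'', b3'', c''⟩ := z
  simp only [mul_def, E.mk.injEq, Bool.and_xor_distrib_left, Bool.and_xor_distrib_right,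
    Bool.xor_assoc]
  refine ⟨trivial, trivial, trivial, trivial, trivial, trivial, ?_⟩
  simp only [Bool.xor_left_comm, Bool.xor_comm, Bool.xor_assoc]

theorem one_mul' (x : E) : 1 * x = x := by
  obtain ⟨a1, a2, a3, b1, b2, b3, c⟩ := x
  simp [mul_def, one_def]

theorem inv_mul' (x : E) : x⁻¹ * x = 1 := by
  obtain ⟨a1, a2, a3, b1, b2, b3, c⟩ := x
  simp only [mul_def, one_def, inv_def, E.mk.injEq, Bool.xor_self, true_and]
  revert a1 a2 a3 b1 b2 b3 c
  decide

instance : Group E := Group.ofLeftAxioms mul_assoc' one_mul' inv_mul'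

/-- The symplectic form. -/
def B (x y : E) : Bool :=
  (x.a1 && y.b1) ^^ (x.a2 && y.b2) ^^ (x.a3 && y.b3) ^^ (y.a1 && x.b1) ^^ (y.a2 && x.b2) ^^
    (y.a3 && x.b3)

theorem xor_cancel (a b s t : Bool) (h : (a ^^ b ^^ s) = (b ^^ a ^^ t)) : s = t := by
  revert a b s t; decide

theorem comm_iff (x y : E) : x * y = y * x ↔ B x y = false := by
  have h1 : ∀ s t : Bool, (s = t) ↔ (s ^^ t) = false := by decide
  have h2 : ∀ a b s t : Bool, ((a ^^ b ^^ s) = (b ^^ a ^^ t)) ↔ s = t := by decide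
  simp only [mul_def, E.mk.injEq, B]
  constructor
  · rintro ⟨-, -, -, -, -, -, h⟩
    rw [Bool.xor_assoc, Bool.xor_assoc, Bool.xor_assoc, Bool.xor_assoc, Bool.xor_assoc,
      Bool.xor_assoc, ← Bool.xor_assoc x.c, ← Bool.xor_assoc y.c, h2, h1] at h
    rw [← h]
    simp only [Bool.xor_assoc]
  · intro h
    refine ⟨Bool.xor_comm _ _, Bool.xor_comm _ _, Bool.xor_comm _ _, Bool.xor_comm _ _,
      Bool.xor_comm _ _, Bool.xor_comm _ _, ?_⟩
    rw [Bool.xor_assoc, Bool.xor_assoc, Bool.xor_assoc, Bool.xor_assoc, Bool.xor_assoc,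
      Bool.xor_assoc, ← Bool.xor_assoc x.c, ← Bool.xor_assoc y.c, h2, h1]
    rw [← h]
    simp only [Bool.xor_assoc]

theorem card_E : Nat.card E = 128 := by
  rw [Nat.card_eq_fintype_card]
  decide +kernel

/-- The homomorphism to the group with two elements. -/
def eta : E →* Multiplicative (ZMod 2) where
  toFun x := Multiplicative.ofAdd (bif x.a1 then 1 else 0)
  map_one' := rfl
  map_mul' x y := by
    rw [← ofAdd_add]
    congr 1
    show (bif (x.a1 ^^ y.a1) then (1 : ZMod 2) else 0) = _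
    cases x.a1 <;> cases y.a1 <;> decide

theorem eta_eq_one_iff (x : E) : eta x = 1 ↔ x.a1 = false := by
  show Multiplicative.ofAdd (bif x.a1 then (1 : ZMod 2) else 0) = 1 ↔ _
  cases x.a1 <;> decide

theorem eta_eq_iff (x : E) : eta x = Multiplicative.ofAdd 1 ↔ x.a1 = true := by
  show Multiplicative.ofAdd (bif x.a1 then (1 : ZMod 2) else 0) = _ ↔ _
  cases x.a1 <;> decide

theorem count00 : (Finset.univ.filter fun q : E × E =>
    (!(B q.1 q.2) && !q.1.a1 && !q.2.a1) = true).card = 2176 := by decide +kernel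

theorem count01 : (Finset.univ.filter fun q : E × E =>
    (!(B q.1 q.2) && !q.1.a1 && q.2.a1) = true).card = 2048 := by decide +kernel

theorem count10 : (Finset.univ.filter fun q : E × E =>
    (!(B q.1 q.2) && q.1.a1 && !q.2.a1) = true).card = 2048 := by decide +kernel

theorem count11 : (Finset.univ.filter fun q : E × E =>
    (!(B q.1 q.2) && q.1.a1 && q.2.a1) = true).card = 2048 := by decide +kernel

end E

end Pool.Agent.R720.BC
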