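import Pool.Agent.R720.Sub4

/-!
# Pairwise non-conjugate elements of `PΓL₂(9)` and of `PGL₂(9)` of order prime to `3`
-/

namespace Pool.Agent.R720.BC

open scoped Classical

/-- The fifth power. -/
def pow5c (c : ℕ) : ℕ := mulc (sqc (sqc c)) c

/-- A conjugation invariant. -/
def ivc (c : ℕ) : ℕ :=
  (bif Nat.beq c onec then 1 else 0) + (bif Nat.beq (sqc c) onec then 2 else 0) +
    (bif Nat.beq (sqc (sqc c)) onec then 4 else 0) + (bif Nat.beq (pow5c c) onec then 8 else 0) +
    (bif Nat.beq (dg c 10) 0 then 16 else 0) + (bif Nat.beq (sqc (sqc (sqc c))) onec then 32 else 0)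

theorem bif_congr {a b : Bool} {m n : ℕ} (h : a = true ↔ b = true) :
    (bif a then m else n) = (bif b then m else n) := by
  rw [Bool.eq_iff_iff.2 h]

theorem cg_sq (y : Gam) : cg (y ^ 2) = sqc (cg y) := by
  rw [pow_two, cg_mul]; rfl

theorem cg_p4 (y : Gam) : cg (y ^ 4) = sqc (sqc (cg y)) := by
  rw [← cg_sq, ← cg_sq, ← pow_mul]

theorem cg_p8 (y : Gam) : cg (y ^ 8) = sqc (sqc (sqc (cg y))) := by
  rw [← cg_sq, ← cg_sq, ← cg_sq, ← pow_mul, ← pow_mul]

theorem cg_p5 (y : Gam) : cg (y ^ 5) = pow5c (cg y) := by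
  unfold pow5c
  rw [← cg_p4, ← cg_mul, ← pow_succ]

theorem beq_one_iff (y : Gam) : Nat.beq (cg y) onec = true ↔ y = 1 := by
  rw [Nat.beq_eq, ← cg_one]
  exact cg_inj.eq_iff

theorem ivc_conj (x y : Gam) (h : IsConj x y) : ivc (cg x) = ivc (cg y) := by
  have hp : ∀ k : ℕ, x ^ k = 1 ↔ y ^ k = 1 := by
    intro k
    obtain ⟨c, rfl⟩ := isConj_iff.1 h
    rw [conj_pow]
    constructor
    · intro h1
      rw [h1, mul_one, mul_inv_cancel]
    · intro h1
      have h2 : c⁻¹ * (c * x ^ k * c⁻¹) * c = c⁻¹ * 1 * c := by rw [h1]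
      have h3 : c⁻¹ * (c * x ^ k * c⁻¹) * c = x ^ k := by group
      rw [← h3, h2]; group
  have he : eps x = eps y := by
    obtain ⟨c, rfl⟩ := isConj_iff.1 h
    rw [map_mul, map_mul, map_inv, mul_comm (eps c) (eps x), mul_inv_cancel_right]
  unfold ivc
  rw [← cg_sq, ← cg_sq y, ← cg_sq (x ^ 2), ← cg_sq (y ^ 2), ← cg_sq ((x ^ 2) ^ 2),
    ← cg_sq ((y ^ 2) ^ 2), ← cg_p5, ← cg_p5, ← pow_mul, ← pow_mul, ← pow_mul, ← pow_mul]
  congr 1
  · congr 1
    · congr 1
      · congr 1
        · congr 1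
          · apply bif_congr
            rw [beq_one_iff, beq_one_iff]
            have := hp 1
            rwa [pow_one, pow_one] at this
          · apply bif_congr
            rw [beq_one_iff, beq_one_iff]
            exact hp 2
        · apply bif_congr
          rw [beq_one_iff, beq_one_iff]
          exact hp _
      · apply bif_congr
        rw [beq_one_iff, beq_one_iff]
        exact hp 5
    · apply bif_congr
      rw [← eps_eq_one_iff, ← eps_eq_one_iff, he]
  · apply bif_congr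
    rw [beq_one_iff, beq_one_iff]
    exact hp _

/-- Codes of representatives of classes. -/
def repc : List ℕ := [654820258320, 22658101545, 13222970745, 35288138130, 14655231810,
  32565900930, 17508554850, 1135806275881, 1130692416361, 1140133541986, 1109849621881]

/-- Codes of representatives of classes of `PGL₂(9)`. -/
def repc0 : List ℕ := [654820258320, 22658101545, 13222970745, 35288138130, 14655231810,
  23645623410, 32565900930, 6279496530, 17508554850, 39870096690]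

/-- Non-conjugate codes. -/
def nconj (c c' : ℕ) : Bool := Lf.all fun d => !(Nat.beq (mulc d c) (mulc c' d))

/-- Non-conjugate codes in `PGL₂(9)`. -/
def nconj0 (c c' : ℕ) : Bool :=
  Lf.all fun d => !(Nat.beq (dg d 10) 0) || !(Nat.beq (mulc d c) (mulc c' d))

theorem not_conj (x y : Gam) (h : nconj (cg x) (cg y) = true) : ¬ IsConj x y := by
  intro hc
  obtain ⟨c, hc⟩ := isConj_iff.1 hc
  unfold nconj at h
  rw [List.all_eq_true] at h
  have h1 := h _ (cg_mem c)
  rw [← cg_mul, ← cg_mul] at h1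
  have h2 : c * x = y * c := by rw [← hc]; group
  rw [h2] at h1
  rw [Nat.beq_refl] at h1
  exact absurd h1 (by decide)

theorem not_conj0 (x y : eps.ker) (h : nconj0 (cg x) (cg y) = true) : ¬ IsConj x y := by
  intro hc
  obtain ⟨c, hc⟩ := isConj_iff.1 hc
  unfold nconj0 at h
  rw [List.all_eq_true] at h
  have h1 := h _ (cg_mem c)
  have h3 : Nat.beq (dg (cg (c : Gam)) 10) 0 = true := (eps_eq_one_iff _).1 c.2
  rw [← cg_mul, ← cg_mul, h3] at h1
  have h2 : (c : Gam) * x = y * c := by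
    rw [← hc]
    show (c : Gam) * x = c * x * (c : Gam)⁻¹ * c
    group
  rw [h2, Nat.beq_refl] at h1
  exact absurd h1 (by decide)

theorem rep_mem : (repc.all fun c => memL c && Nat.beq (pow160c c) onec) = true := by
  decide +kernel

theorem rep0_mem : (repc0.all fun c => memL c && Nat.beq (pow160c c) onec &&
    Nat.beq (dg c 10) 0) = true := by
  decide +kernel

theorem rep_pairs : ∀ i j : Fin 11, ivc (repc.getD i 0) = ivc (repc.getD j 0) → i = j ∨
    (i = 1 ∧ j = 2) ∨ (i = 2 ∧ j = 1) ∨ (i = 8 ∧ j = 9) ∨ (i = 9 ∧ j = 8) := by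
  decide +kernel

theorem rep0_pairs : ∀ i j : Fin 10, ivc (repc0.getD i 0) = ivc (repc0.getD j 0) → i = j ∨
    (i = 1 ∧ j = 2) ∨ (i = 2 ∧ j = 1) ∨ (i = 4 ∧ j = 5) ∨ (i = 5 ∧ j = 4) ∨
    (i = 6 ∧ j = 7) ∨ (i = 7 ∧ j = 6) ∨ (i = 8 ∧ j = 9) ∨ (i = 9 ∧ j = 8) := by
  decide +kernel

theorem nc12 : nconj 22658101545 13222970745 = true := by decide +kernel
theorem nc89 : nconj 1130692416361 1140133541986 = true := by decide +kernel
theorem nc0_12 : nconj0 22658101545 13222970745 = true := by decide +kernel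
theorem nc0_45 : nconj0 14655231810 23645623410 = true := by decide +kernel
theorem nc0_67 : nconj0 32565900930 6279496530 = true := by decide +kernel
theorem nc0_89 : nconj0 17508554850 39870096690 = true := by decide +kernel

theorem exists_reps : ∃ v : Fin 11 → Gam, (∀ i, ¬ 3 ∣ orderOf (v i)) ∧
    ∀ i j, i ≠ j → ¬ IsConj (v i) (v j) := by
  have hm := rep_mem
  rw [List.all_eq_true] at hm
  have h1 : ∀ i : Fin 11, repc.getD i 0 ∈ repc := by
    intro i
    rw [List.getD_eq_getElem _ _ (by exact i.2)]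
    exact List.getElem_mem _
  have h2 : ∀ i : Fin 11, ∃ x : Gam, cg x = repc.getD i 0 := by
    intro i
    have h3 := hm _ (h1 i)
    rw [Bool.and_eq_true] at h3
    exact exists_cg (mem_of_memL h3.1)
  choose v hv using h2
  refine ⟨v, ?_, ?_⟩
  · intro i h3
    have h4 := hm _ (h1 i)
    rw [Bool.and_eq_true, ← hv, ← cg_pow160, beq_one_iff] at h4
    have h5 : 3 ∣ 160 := h3.trans (orderOf_dvd_of_pow_eq_one h4.2)
    omega
  · intro i j hij hc
    have h3 := ivc_conj _ _ hc
    rw [hv, hv] at h3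
    rcases rep_pairs i j h3 with h | ⟨rfl, rfl⟩ | ⟨rfl, rfl⟩ | ⟨rfl, rfl⟩ | ⟨rfl, rfl⟩
    · exact hij h
    · exact not_conj _ _ (by rw [hv, hv]; exact nc12) hc
    · exact not_conj _ _ (by rw [hv, hv]; exact nc12) hc.symm
    · exact not_conj _ _ (by rw [hv, hv]; exact nc89) hc
    · exact not_conj _ _ (by rw [hv, hv]; exact nc89) hc.symm

theorem exists_reps0 : ∃ v : Fin 10 → eps.ker, (∀ i, ¬ 3 ∣ orderOf (v i)) ∧
    ∀ i j, i ≠ j → ¬ IsConj (v i) (v j) := by
  have hm := rep0_mem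
  rw [List.all_eq_true] at hm
  have h1 : ∀ i : Fin 10, repc0.getD i 0 ∈ repc0 := by
    intro i
    rw [List.getD_eq_getElem _ _ (by exact i.2)]
    exact List.getElem_mem _
  have h2 : ∀ i : Fin 10, ∃ x : eps.ker, cg (x : Gam) = repc0.getD i 0 := by
    intro i
    have h3 := hm _ (h1 i)
    rw [Bool.and_eq_true, Bool.and_eq_true] at h3
    obtain ⟨x, hx⟩ := exists_cg (mem_of_memL h3.1.1)
    refine ⟨⟨x, ?_⟩, hx⟩
    rw [MonoidHom.mem_ker, eps_eq_one_iff, hx]
    exact h3.2
  choose v hv using h2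
  refine ⟨v, ?_, ?_⟩
  · intro i h3
    have h4 := hm _ (h1 i)
    rw [Bool.and_eq_true, Bool.and_eq_true, ← hv, ← cg_pow160, beq_one_iff] at h4
    rw [← Subgroup.orderOf_coe] at h3
    have h5 : 3 ∣ 160 := h3.trans (orderOf_dvd_of_pow_eq_one h4.1.2)
    omega
  · intro i j hij hc
    have hc' : IsConj (v i : Gam) (v j : Gam) := by
      obtain ⟨c, hc⟩ := isConj_iff.1 hc
      exact isConj_iff.2 ⟨c, congrArg Subtype.val hc⟩
    have h3 := ivc_conj _ _ hc'
    rw [hv, hv] at h3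
    rcases rep0_pairs i j h3 with h | ⟨rfl, rfl⟩ | ⟨rfl, rfl⟩ | ⟨rfl, rfl⟩ | ⟨rfl, rfl⟩ |
      ⟨rfl, rfl⟩ | ⟨rfl, rfl⟩ | ⟨rfl, rfl⟩ | ⟨rfl, rfl⟩
    · exact hij h
    · exact not_conj0 _ _ (by rw [hv, hv]; exact nc0_12) hc
    · exact not_conj0 _ _ (by rw [hv, hv]; exact nc0_12) hc.symm
    · exact not_conj0 _ _ (by rw [hv, hv]; exact nc0_45) hc
    · exact not_conj0 _ _ (by rw [hv, hv]; exact nc0_45) hc.symm
    · exact not_conj0 _ _ (by rw [hv, hv]; exact nc0_67) hc
    · exact not_conj0 _ _ (by rw [hv, hv]; exact nc0_67) hc.symm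
    · exact not_conj0 _ _ (by rw [hv, hv]; exact nc0_89) hc
    · exact not_conj0 _ _ (by rw [hv, hv]; exact nc0_89) hc.symm

theorem reg_conj {X : Type*} [Group X] (x y : X) (h : ¬ 3 ∣ orderOf x) :
    ¬ 3 ∣ orderOf (y * x * y⁻¹) := by
  have e : orderOf (y * x * y⁻¹) = orderOf x := by
    have := orderOf_injective (MulAut.conj y).toMonoidHom (MulAut.conj y).injective x
    exact this
  rwa [e]

theorem ker_length : (Lf.filter fun c => Nat.beq (dg c 10) 0).length = 720 := by decide +kernel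

theorem codes_ker : Codes (fs eps.ker) (Lf.filter fun c => Nat.beq (dg c 10) 0) := by
  have h := codes_filter fun c => Nat.beq (dg c 10) 0
  have e : fs eps.ker = Finset.univ.filter fun x : Gam => Nat.beq (dg (cg x) 10) 0 = true := by
    ext x
    rw [mem_fs, MonoidHom.mem_ker, eps_eq_one_iff, Finset.mem_filter]
    exact ⟨fun hx => ⟨Finset.mem_univ _, hx⟩, fun hx => hx.2⟩
  rwa [e]

theorem ker_card : Nat.card eps.ker = 720 := by
  rw [← card_fs, codes_ker.card, ker_length]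

theorem reg_pairs : 11 * 1440 ≤
    Nat.card {q : Gam × Gam // ¬ 3 ∣ orderOf q.1 ∧ Commute q.1 q.2} := by
  obtain ⟨v, hv, hne⟩ := exists_reps
  have h := card_comm_pred_ge (fun x : Gam => ¬ 3 ∣ orderOf x) (fun x y h => reg_conj x y h) 11 v
    hv hne
  rwa [card_Gam] at h

theorem reg_pairs0 : 10 * 720 ≤
    Nat.card {q : eps.ker × eps.ker // ¬ 3 ∣ orderOf q.1 ∧ Commute q.1 q.2} := by
  obtain ⟨v, hv, hne⟩ := exists_reps0
  have h := card_comm_pred_ge (fun x : eps.ker => ¬ 3 ∣ orderOf x)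
    (fun x y h => reg_conj x y h) 10 v hv hne
  rwa [ker_card] at h

end Pool.Agent.R720.BC
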