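import Pool.Agent.R720.Sub5
import Pool.Agent.R720.Inv
import Pool.Agent.R720.E

/-!
# The fibre product of `PΓL₂(9)` and the extraspecial group of order `128`
-/

namespace Pool.Agent.R720.BC

open scoped Classical

/-- The fibre product: pairs `(x, e)` with `x ∈ PΓL₂(9)`, `e ∈ 2^{1+6}` with the same image in the
group with two elements. -/
def GG : Subgroup (Gam × E) :=
  MonoidHom.eqLocus (eps.comp (MonoidHom.fst Gam E)) (E.eta.comp (MonoidHom.snd Gam E))

theorem mem_GG_iff (z : Gam × E) : z ∈ GG ↔ eps z.1 = E.eta z.2 := Iff.rfl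

theorem C2_cases (a : C2) : a = 1 ∨ a = Multiplicative.ofAdd 1 := by
  revert a; decide

theorem C2_ne : (Multiplicative.ofAdd (1 : ZMod 2)) ≠ 1 := by decide

/-- The numbers of commuting pairs of elements of the extraspecial group with given images. -/
theorem countE (α β : C2) :
    Nat.card {r : E × E // (E.eta r.1 = α ∧ E.eta r.2 = β) ∧ Commute r.1 r.2} =
      2048 + if α = 1 ∧ β = 1 then 128 else 0 := by
  have hc : ∀ x y : E, Commute x y ↔ (!(E.B x y)) = true := by
    intro x y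
    rw [Bool.not_eq_true', ← E.comm_iff]
    exact Iff.rfl
  rcases C2_cases α with rfl | rfl <;> rcases C2_cases β with rfl | rfl
  · rw [if_pos ⟨rfl, rfl⟩, Nat.subtype_card _ ?_]
    · exact E.count00
    · intro r
      rw [Finset.mem_filter, E.eta_eq_one_iff, E.eta_eq_one_iff, hc]
      simp only [Finset.mem_univ, true_and, Bool.and_eq_true, Bool.not_eq_true']
      tauto
  · rw [if_neg (fun h => C2_ne h.2), Nat.subtype_card _ ?_]
    · exact E.count01
    · intro r
      rw [Finset.mem_filter, E.eta_eq_one_iff, E.eta_eq_iff, hc]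
      simp only [Finset.mem_univ, true_and, Bool.and_eq_true, Bool.not_eq_true']
      tauto
  · rw [if_neg (fun h => C2_ne h.1), Nat.subtype_card _ ?_]
    · exact E.count10
    · intro r
      rw [Finset.mem_filter, E.eta_eq_one_iff, E.eta_eq_iff, hc]
      simp only [Finset.mem_univ, true_and, Bool.and_eq_true, Bool.not_eq_true']
      tauto
  · rw [if_neg (fun h => C2_ne h.1), Nat.subtype_card _ ?_]
    · exact E.count11
    · intro r
      rw [Finset.mem_filter, E.eta_eq_iff, E.eta_eq_iff, hc]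
      simp only [Finset.mem_univ, true_and, Bool.and_eq_true, Bool.not_eq_true']
      tauto

/-- Commuting pairs in the fibre product. -/
theorem fib_count (Q : Gam → Gam → Prop) :
    Nat.card {q : GG × GG // Q q.1.1.1 q.2.1.1 ∧ Commute q.1 q.2} =
      2048 * Nat.card {p : Gam × Gam // Q p.1 p.2 ∧ Commute p.1 p.2} +
      128 * Nat.card {p : Gam × Gam // (Q p.1 p.2 ∧ eps p.1 = 1 ∧ eps p.2 = 1) ∧
        Commute p.1 p.2} := by
  have h1 : Nat.card {q : GG × GG // Q q.1.1.1 q.2.1.1 ∧ Commute q.1 q.2} =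
      Nat.card (Σ p : {p : Gam × Gam // Q p.1 p.2 ∧ Commute p.1 p.2},
        {r : E × E // (E.eta r.1 = eps p.1.1 ∧ E.eta r.2 = eps p.1.2) ∧ Commute r.1 r.2}) :=
    Nat.card_congr
      { toFun := fun q => ⟨⟨(q.1.1.1.1, q.1.2.1.1), q.2.1,
            congrArg (fun z => ((z : GG) : Gam × E).1) q.2.2.eq⟩,
          ⟨(q.1.1.1.2, q.1.2.1.2), ⟨q.1.1.2.symm, q.1.2.2.symm⟩,
            congrArg (fun z => ((z : GG) : Gam × E).2) q.2.2.eq⟩⟩
        invFun := fun s => ⟨(⟨(s.1.1.1, s.2.1.1), s.2.2.1.1.symm⟩,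
            ⟨(s.1.1.2, s.2.1.2), s.2.2.1.2.symm⟩), s.1.2.1,
            Subtype.ext (Prod.ext s.1.2.2.eq s.2.2.2.eq)⟩
        left_inv := fun q => rfl
        right_inv := fun s => rfl }
  have := Fintype.ofFinite {p : Gam × Gam // Q p.1 p.2 ∧ Commute p.1 p.2}
  rw [h1, Nat.card_sigma, Finset.sum_congr rfl fun p _ => countE (eps p.1.1) (eps p.1.2),
    Finset.sum_add_distrib, Finset.sum_const, smul_eq_mul, Finset.card_univ,
    ← Nat.card_eq_fintype_card, ← Finset.sum_filter, Finset.sum_const, smul_eq_mul, mul_comm 2048,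
    mul_comm 128]
  congr 2
  symm
  rw [← Nat.subtype_card (p := fun p : {p : Gam × Gam // Q p.1 p.2 ∧ Commute p.1 p.2} =>
    eps p.1.1 = 1 ∧ eps p.1.2 = 1) _ (by intro x; simp)]
  exact Nat.card_congr
    { toFun := fun p => ⟨⟨p.1, p.2.1.1, p.2.2⟩, p.2.1.2⟩
      invFun := fun p => ⟨p.1.1, ⟨p.1.2.1, p.2⟩, p.1.2.2⟩
      left_inv := fun p => rfl
      right_inv := fun p => rfl }

theorem C2_univ_card : Nat.card (Multiplicative (ZMod 2)) = 2 := by
  rw [Nat.card_eq_fintype_card]; rfl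

theorem card_ker_eta : Nat.card E.eta.ker = 64 := by
  have h : Nat.card E.eta.ker = (Finset.univ.filter fun x : E => x.a1 = false).card := by
    apply Nat.subtype_card
    intro x
    rw [Finset.mem_filter, ← E.eta_eq_one_iff]
    exact ⟨fun h => h.2, fun h => ⟨Finset.mem_univ _, h⟩⟩
  rw [h]
  decide +kernel

theorem cpn_ker_eta : cpn E.eta.ker = 2176 := by
  have h : cpn E.eta.ker =
      Nat.card {r : E × E // (E.eta r.1 = 1 ∧ E.eta r.2 = 1) ∧ Commute r.1 r.2} :=
    Nat.card_congr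
      { toFun := fun q => ⟨(q.1.1.1, q.1.2.1), ⟨q.1.1.2, q.1.2.2⟩,
          congrArg Subtype.val q.2.eq⟩
        invFun := fun r => ⟨(⟨r.1.1, r.2.1.1⟩, ⟨r.1.2, r.2.1.2⟩), Subtype.ext r.2.2.eq⟩
        left_inv := fun q => rfl
        right_inv := fun r => rfl }
  rw [h, countE, if_pos ⟨rfl, rfl⟩]

theorem orderOf_GG (z : GG) : (¬ 3 ∣ orderOf z) ↔ ¬ 3 ∣ orderOf z.1.1 := by
  rw [← Subgroup.orderOf_coe]
  constructor
  · intro h h3
    exact h (h3.trans orderOf_fst_dvd_orderOf)
  · intro h h3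
    rw [Prod.orderOf] at h3
    have h128 : orderOf z.1.2 ∣ 128 := by
      rw [← E.card_E]; exact orderOf_dvd_natCard _
    have h4 : 3 ∣ orderOf z.1.1 * 128 :=
      h3.trans ((Nat.lcm_dvd_mul _ _).trans (Nat.mul_dvd_mul_left _ h128))
    rcases (Nat.Prime.dvd_mul Nat.prime_three).1 h4 with h5 | h5
    · exact h h5
    · omega

/-- The fibre product has order `92160`. -/
theorem card_GG : Nat.card GG = 92160 := by
  have h1 : Nat.card GG = Nat.card (Σ x : Gam, {e : E // E.eta e = eps x}) :=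
    Nat.card_congr
      { toFun := fun z => ⟨z.1.1, ⟨z.1.2, z.2.symm⟩⟩
        invFun := fun s => ⟨(s.1, s.2.1), s.2.2.symm⟩
        left_inv := fun z => rfl
        right_inv := fun s => rfl }
  have h2 : ∀ α : C2, Nat.card {e : E // E.eta e = α} = 64 := by
    intro α
    rcases C2_cases α with rfl | rfl
    · exact card_ker_eta
    · have h : Nat.card {e : E // E.eta e = Multiplicative.ofAdd 1} =
          (Finset.univ.filter fun x : E => x.a1 = true).card := by
        apply Nat.subtype_card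
        intro x
        rw [Finset.mem_filter, ← E.eta_eq_iff]
        exact ⟨fun h => h.2, fun h => ⟨Finset.mem_univ _, h⟩⟩
      rw [h]
      decide +kernel
  rw [h1, Nat.card_sigma, Finset.sum_congr rfl fun x _ => h2 (eps x), Finset.sum_const,
    smul_eq_mul, Finset.card_univ, ← Nat.card_eq_fintype_card, card_Gam]

/-- The number of classes of `3`-regular elements of the fibre product. -/
theorem regular_classes : 362 ≤
    Nat.card {c : ConjClasses GG // ∃ x, ConjClasses.mk x = c ∧ ¬ 3 ∣ orderOf x} := by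
  have h1 := card_comm_pred (X := GG) (fun x => ¬ 3 ∣ orderOf x) (fun x y h => reg_conj x y h)
  have h2 : Nat.card {q : GG × GG // ¬ 3 ∣ orderOf q.1 ∧ Commute q.1 q.2} =
      Nat.card {q : GG × GG // ¬ 3 ∣ orderOf q.1.1.1 ∧ Commute q.1 q.2} :=
    Nat.card_congr (Equiv.subtypeEquivRight fun q => by rw [orderOf_GG])
  have h3 := fib_count (fun x _ => ¬ 3 ∣ orderOf x)
  have h4 := reg_pairs
  have h5 := reg_pairs0
  have h6 : Nat.card {q : eps.ker × eps.ker // ¬ 3 ∣ orderOf q.1 ∧ Commute q.1 q.2} =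
      Nat.card {p : Gam × Gam // (¬ 3 ∣ orderOf p.1 ∧ eps p.1 = 1 ∧ eps p.2 = 1) ∧
        Commute p.1 p.2} :=
    Nat.card_congr
      { toFun := fun q => ⟨(q.1.1.1, q.1.2.1),
          ⟨by have := q.2.1; rwa [← Subgroup.orderOf_coe] at this, q.1.1.2, q.1.2.2⟩,
          congrArg Subtype.val q.2.2.eq⟩
        invFun := fun p => ⟨(⟨p.1.1, p.2.1.2.1⟩, ⟨p.1.2, p.2.1.2.2⟩),
          by rw [← Subgroup.orderOf_coe]; exact p.2.1.1, Subtype.ext p.2.2.eq⟩
        left_inv := fun q => rfl
        right_inv := fun r => rfl }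
  rw [card_GG] at h1
  rw [h6] at h5
  rw [h2, h3] at h1
  omega

end Pool.Agent.R720.BC
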