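import Pool.Agent.R720.Fib

/-!
# The class numbers of the subgroups of order prime to `3` of the fibre product
-/

namespace Pool.Agent.R720.BC

open scoped Classical

/-- The projection to `PΓL₂(9)`. -/
def phi (H : Subgroup GG) : H →* Gam := (MonoidHom.fst Gam E).comp (GG.subtype.comp H.subtype)

theorem phi_apply (H : Subgroup GG) (x : H) : phi H x = x.1.1.1 := rfl

/-- The kernel of the projection as a subgroup of the extraspecial group. -/
def psi (H : Subgroup GG) : (phi H).ker →* E.eta.ker where
  toFun k := ⟨k.1.1.1.2, by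
    have h1 : eps k.1.1.1.1 = E.eta k.1.1.1.2 := k.1.1.2
    have h2 : k.1.1.1.1 = 1 := k.2
    rw [MonoidHom.mem_ker, ← h1, h2, map_one]⟩
  map_one' := rfl
  map_mul' _ _ := rfl

theorem psi_inj (H : Subgroup GG) : Function.Injective (psi H) := by
  intro a b hab
  have h1 : a.1.1.1.1 = 1 := a.2
  have h2 : b.1.1.1.1 = 1 := b.2
  have h3 : a.1.1.1.2 = b.1.1.1.2 := congrArg Subtype.val hab
  exact Subtype.ext (Subtype.ext (Subtype.ext (Prod.ext (h1.trans h2.symm) h3)))

theorem card_H (H : Subgroup GG) :
    Nat.card H = Nat.card (phi H).range * Nat.card (phi H).ker := by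
  rw [Subgroup.card_eq_card_quotient_mul_card_subgroup (phi H).ker,
    Nat.card_congr (QuotientGroup.quotientKerEquivRange (phi H)).toEquiv]

theorem ker_dvd (H : Subgroup GG) : Nat.card (phi H).ker ∣ 64 := by
  have h : Nat.card (phi H).ker = Nat.card (psi H).range :=
    Nat.card_congr (MonoidHom.ofInjective (psi_inj H)).toEquiv
  rw [h, ← card_ker_eta]
  exact Subgroup.card_subgroup_dvd_card _

/-- The class number of the full preimage. -/
theorem cpn_full (H : Subgroup GG) (hk : Nat.card (phi H).ker = 64) :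
    cpn H = 2048 * cpn (phi H).range + 128 * cpn ((phi H).range ⊓ eps.ker : Subgroup Gam) := by
  have hbij : Function.Bijective (psi H) := by
    have hc : Nat.card (phi H).ker = Nat.card E.eta.ker := by rw [hk, card_ker_eta]
    have := Fintype.ofFinite (phi H).ker
    have := Fintype.ofFinite E.eta.ker
    rw [Fintype.bijective_iff_injective_and_card]
    exact ⟨psi_inj H, by rwa [Nat.card_eq_fintype_card, Nat.card_eq_fintype_card] at hc⟩
  have hmem : ∀ x : GG, x ∈ H ↔ x.1.1 ∈ (phi H).range := by
    intro x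
    constructor
    · intro hx
      exact ⟨⟨x, hx⟩, rfl⟩
    · rintro ⟨y, hy⟩
      have hy' : y.1.1.1 = x.1.1 := hy
      have he : E.eta (x.1.2 * y.1.1.2⁻¹) = 1 := by
        have h1 : eps x.1.1 = E.eta x.1.2 := x.2
        have h2 : eps y.1.1.1 = E.eta y.1.1.2 := y.1.2
        rw [map_mul, map_inv, ← h1, ← h2, hy', mul_inv_cancel]
      obtain ⟨k, hk⟩ := hbij.2 ⟨x.1.2 * y.1.1.2⁻¹, he⟩
      have hk1 : k.1.1.1.1 = 1 := k.2
      have hk2 : k.1.1.1.2 = x.1.2 * y.1.1.2⁻¹ := congrArg Subtype.val hk
      have hx : x = k.1.1 * y.1 := by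
        apply Subtype.ext
        apply Prod.ext
        · show x.1.1 = k.1.1.1.1 * y.1.1.1
          rw [hk1, one_mul, hy']
        · show x.1.2 = k.1.1.1.2 * y.1.1.2
          rw [hk2, inv_mul_cancel_right]
      rw [hx]
      exact mul_mem k.1.2 y.2
  have h1 : cpn H = Nat.card {q : GG × GG // (q.1.1.1 ∈ (phi H).range ∧
      q.2.1.1 ∈ (phi H).range) ∧ Commute q.1 q.2} :=
    Nat.card_congr
      { toFun := fun q => ⟨(q.1.1.1, q.1.2.1), ⟨(hmem _).1 q.1.1.2, (hmem _).1 q.1.2.2⟩,
          congrArg Subtype.val q.2.eq⟩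
        invFun := fun q => ⟨(⟨q.1.1, (hmem _).2 q.2.1.1⟩, ⟨q.1.2, (hmem _).2 q.2.1.2⟩),
          Subtype.ext q.2.2.eq⟩
        left_inv := fun q => rfl
        right_inv := fun q => rfl }
  rw [h1, fib_count fun x y => x ∈ (phi H).range ∧ y ∈ (phi H).range]
  congr 2
  · exact Nat.card_congr
      { toFun := fun p => ⟨(⟨p.1.1, p.2.1.1⟩, ⟨p.1.2, p.2.1.2⟩), Subtype.ext p.2.2.eq⟩
        invFun := fun q => ⟨(q.1.1.1, q.1.2.1), ⟨q.1.1.2, q.1.2.2⟩, congrArg Subtype.val q.2.eq⟩
        left_inv := fun q => rfl
        right_inv := fun q => rfl }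
  · exact Nat.card_congr
      { toFun := fun p => ⟨(⟨p.1.1, p.2.1.1.1, p.2.1.2.1⟩, ⟨p.1.2, p.2.1.1.2, p.2.1.2.2⟩),
          Subtype.ext p.2.2.eq⟩
        invFun := fun q => ⟨(q.1.1.1, q.1.2.1), ⟨⟨q.1.1.2.1, q.1.2.2.1⟩, q.1.1.2.2, q.1.2.2.2⟩,
          congrArg Subtype.val q.2.eq⟩
        left_inv := fun q => rfl
        right_inv := fun q => rfl }

/-- All subgroups of order prime to `3` have less than `362` classes. -/
theorem class_number_lt (H : Subgroup GG) (h3 : ¬ 3 ∣ Nat.card H) :
    Nat.card (ConjClasses H) < 362 := by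
  have hH := card_H H
  have hpos : 0 < Nat.card H := Nat.card_pos
  have hR3 : ¬ 3 ∣ Nat.card (phi H).range := by
    intro h
    exact h3 (by rw [hH]; exact Dvd.dvd.mul_right h _)
  have hb := bound (phi H).range hR3
  have hkd := ker_dvd H
  have hle := Nat.le_of_dvd (by norm_num) hkd
  have hmul := cpn_le_mul (phi H)
  have hcp := cpn_eq H
  have hkp : 0 < Nat.card (phi H).ker := Nat.card_pos
  have hrp : 0 < Nat.card (phi H).range := Nat.card_pos
  have key : cpn H < 362 * Nat.card H := by
    by_cases hk : Nat.card (phi H).ker ≤ 32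
    · have hr : cpn (phi H).range ≤ 11 * Nat.card (phi H).range := by
        rcases hb with h | ⟨h1, h2, -⟩
        · omega
        · omega
      have hker : cpn (phi H).ker ≤ 32 * Nat.card (phi H).ker := by
        have h1 : cpn (phi H).ker ≤ Nat.card (phi H).ker * Nat.card (phi H).ker := by
          rw [cpn_eq]
          apply Nat.mul_le_mul_right
          exact Nat.card_le_card_of_surjective _ (ConjClasses.mk_surjective)
        exact h1.trans (Nat.mul_le_mul_right _ hk)
      calc cpn H ≤ cpn (phi H).range * cpn (phi H).ker := hmul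
        _ ≤ (11 * Nat.card (phi H).range) * (32 * Nat.card (phi H).ker) :=
            Nat.mul_le_mul hr hker
        _ = 352 * Nat.card H := by rw [hH]; ring
        _ < 362 * Nat.card H := by omega
    · have hk64 : Nat.card (phi H).ker = 64 := by
        generalize Nat.card (phi H).ker = k at hkd hle hk
        interval_cases k <;> omega
      have hker : cpn (phi H).ker = 2176 := by
        rw [← cpn_ker_eta]
        have hbij : Function.Bijective (psi H) := by
          have hc : Nat.card (phi H).ker = Nat.card E.eta.ker := by rw [hk64, card_ker_eta]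
          have := Fintype.ofFinite (phi H).ker
          have := Fintype.ofFinite E.eta.ker
          rw [Fintype.bijective_iff_injective_and_card]
          exact ⟨psi_inj H, by rwa [Nat.card_eq_fintype_card, Nat.card_eq_fintype_card] at hc⟩
        exact cpn_congr (MulEquiv.ofBijective (psi H) hbij)
      rcases hb with h | ⟨h1, h2, h4⟩
      · calc cpn H ≤ cpn (phi H).range * cpn (phi H).ker := hmul
          _ ≤ (10 * Nat.card (phi H).range) * 2176 := by
              rw [hker]; exact Nat.mul_le_mul_right _ h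
          _ = 340 * Nat.card H := by rw [hH, hk64]; ring
          _ < 362 * Nat.card H := by omega
      · rw [cpn_full H hk64, h2, h4, hH, h1, hk64]
        norm_num
  rw [hcp] at key
  exact Nat.lt_of_mul_lt_mul_right key

end Pool.Agent.R720.BC
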