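import Mathlib

/-!
# Commuting pairs in finite groups
-/

namespace Pool.Agent.R720.BC

open scoped Classical

/-- The number of commuting pairs of a group. -/
noncomputable def cpn (X : Type*) [Group X] : ℕ := Nat.card {q : X × X // Commute q.1 q.2}

theorem cpn_eq (X : Type*) [Group X] : cpn X = Nat.card (ConjClasses X) * Nat.card X :=
  card_comm_eq_card_conjClasses_mul_card X

theorem cpn_congr {X X' : Type*} [Group X] [Group X'] (e : X ≃* X') : cpn X = cpn X' := by
  unfold cpn
  refine Nat.card_congr (Equiv.subtypeEquiv (Equiv.prodCongr e.toEquiv e.toEquiv) ?_)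
  rintro ⟨x, y⟩
  constructor
  · intro h
    exact h.map e
  · intro h
    have h1 : e (x * y) = e (y * x) := by
      rw [map_mul, map_mul]
      exact h
    exact e.injective h1

/-- A conjugating element. -/
noncomputable def cj {X : Type*} [Group X] (x₀ g : X) : X :=
  if h : ∃ c : X, c * x₀ * c⁻¹ = g then h.choose else 1

theorem cj_spec {X : Type*} [Group X] {x₀ g : X} (h : ∃ c : X, c * x₀ * c⁻¹ = g) :
    cj x₀ g * x₀ * (cj x₀ g)⁻¹ = g := by
  unfold cj
  rw [dif_pos h]
  exact h.choose_spec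

/-- The class of pairs `(g, h)` with `g` in the class of `x₀` and `h` commuting with `g` is
parametrized by the group. -/
noncomputable def classEquiv {X : Type*} [Group X] (x₀ : X) :
    {q : X × X // (∃ c : X, c * x₀ * c⁻¹ = q.1) ∧ Commute q.1 q.2} ≃ X where
  toFun q := q.1.2 * cj x₀ q.1.1
  invFun z := ⟨(z * x₀ * z⁻¹, z * (cj x₀ (z * x₀ * z⁻¹))⁻¹), ⟨z, rfl⟩, by
      have h := cj_spec (x₀ := x₀) (g := z * x₀ * z⁻¹) ⟨z, rfl⟩
      set y := cj x₀ (z * x₀ * z⁻¹)
      show z * x₀ * z⁻¹ * (z * y⁻¹) = z * y⁻¹ * (z * x₀ * z⁻¹)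
      have h2 : y⁻¹ * (z * x₀ * z⁻¹) = x₀ * y⁻¹ := by
        rw [← h]; group
      calc z * x₀ * z⁻¹ * (z * y⁻¹) = z * (x₀ * y⁻¹) := by group
        _ = z * (y⁻¹ * (z * x₀ * z⁻¹)) := by rw [h2]
        _ = z * y⁻¹ * (z * x₀ * z⁻¹) := by group⟩
  left_inv := by
    rintro ⟨⟨g, h⟩, hg, hc⟩
    have hspec := cj_spec hg
    simp only at hspec hc
    have e1 : h * cj x₀ g * x₀ * (h * cj x₀ g)⁻¹ = g := by
      have hc' : h * g = g * h := hc.eq.symm
      calc h * cj x₀ g * x₀ * (h * cj x₀ g)⁻¹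
          = h * (cj x₀ g * x₀ * (cj x₀ g)⁻¹) * h⁻¹ := by group
        _ = h * g * h⁻¹ := by rw [hspec]
        _ = g := by rw [hc']; group
    apply Subtype.ext
    apply Prod.ext
    · exact e1
    · show h * cj x₀ g * (cj x₀ (h * cj x₀ g * x₀ * (h * cj x₀ g)⁻¹))⁻¹ = h
      rw [e1]
      group
  right_inv := by
    intro z
    show z * _ * _ = z
    group

/-- Burnside's formula for the classes with a given property. -/
theorem card_comm_pred {X : Type*} [Group X] [Finite X] (P : X → Prop)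
    (hP : ∀ x y, P x → P (y * x * y⁻¹)) :
    Nat.card {q : X × X // P q.1 ∧ Commute q.1 q.2} =
      Nat.card {c : ConjClasses X // ∃ x, ConjClasses.mk x = c ∧ P x} * Nat.card X := by
  have := Fintype.ofFinite X
  let f : {q : X × X // P q.1 ∧ Commute q.1 q.2} →
      {c : ConjClasses X // ∃ x, ConjClasses.mk x = c ∧ P x} :=
    fun q => ⟨ConjClasses.mk q.1.1, q.1.1, rfl, q.2.1⟩
  rw [Nat.card_congr (Equiv.sigmaFiberEquiv f).symm, Nat.card_sigma]
  have h : ∀ c, Nat.card {q // f q = c} = Nat.card X := by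
    rintro ⟨c, x, rfl, hx⟩
    refine Nat.card_congr (Equiv.trans ?_ (classEquiv x))
    refine
      { toFun := fun q => ⟨q.1.1, ?_, q.1.2.2⟩
        invFun := fun q => ⟨⟨q.1, ?_, q.2.2⟩, ?_⟩
        left_inv := fun q => rfl
        right_inv := fun q => rfl }
    · have h1 := congrArg Subtype.val q.2
      exact isConj_iff.1 (ConjClasses.mk_eq_mk_iff_isConj.1 h1).symm
    · obtain ⟨c, hc⟩ := q.2.1
      rw [← hc]
      exact hP x c hx
    · apply Subtype.ext
      exact ConjClasses.mk_eq_mk_iff_isConj.2 (isConj_iff.2 q.2.1).symm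
  rw [Finset.sum_congr rfl fun c _ => h c, Finset.sum_const, smul_eq_mul, Finset.card_univ,
    ← Nat.card_eq_fintype_card]

/-- A lower bound for the number of pairs from pairwise non-conjugate elements. -/
theorem card_comm_pred_ge {X : Type*} [Group X] [Finite X] (P : X → Prop)
    (hP : ∀ x y, P x → P (y * x * y⁻¹)) (n : ℕ) (v : Fin n → X) (hv : ∀ i, P (v i))
    (hne : ∀ i j, i ≠ j → ¬ IsConj (v i) (v j)) :
    n * Nat.card X ≤ Nat.card {q : X × X // P q.1 ∧ Commute q.1 q.2} := by
  rw [card_comm_pred P hP]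
  apply Nat.mul_le_mul_right
  have h : Function.Injective (fun i : Fin n =>
      (⟨ConjClasses.mk (v i), v i, rfl, hv i⟩ :
        {c : ConjClasses X // ∃ x, ConjClasses.mk x = c ∧ P x})) := by
    intro i j hij
    by_contra hne'
    exact hne i j hne' (ConjClasses.mk_eq_mk_iff_isConj.1 (congrArg Subtype.val hij))
  have h2 := Nat.card_le_card_of_injective _ h
  rwa [Nat.card_fin] at h2

/-- Elements of a fibre commuting with a given element. -/
theorem fibre_le {H X : Type*} [Group H] [Group X] [Finite H] (φ : H →* X) (g : H) (y : X) :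
    Nat.card {h : H // φ h = y ∧ Commute g h} ≤ Nat.card {n : φ.ker // Commute g (n : H)} := by
  by_cases hne : Nonempty {h : H // φ h = y ∧ Commute g h}
  · obtain ⟨h₀, h1, h2⟩ := hne
    let f : {h : H // φ h = y ∧ Commute g h} → {n : φ.ker // Commute g (n : H)} :=
      fun h => ⟨⟨h₀⁻¹ * h.1, by
        rw [MonoidHom.mem_ker, map_mul, map_inv, h1, h.2.1, inv_mul_cancel]⟩,
        (h2.inv_right).mul_right h.2.2⟩
    refine Nat.card_le_card_of_injective f ?_
    intro a b hab
    have h3 := congrArg (fun z => ((z.1 : φ.ker) : H)) hab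
    exact Subtype.ext (mul_left_cancel h3)
  · rw [not_nonempty_iff] at hne
    rw [Nat.card_of_isEmpty]
    exact Nat.zero_le _

theorem card_sigma_le {α : Type*} {β γ : α → Type*} [Finite α] [∀ a, Finite (β a)]
    [∀ a, Finite (γ a)] (h : ∀ a, Nat.card (β a) ≤ Nat.card (γ a)) :
    Nat.card (Σ a, β a) ≤ Nat.card (Σ a, γ a) := by
  have := Fintype.ofFinite α
  rw [Nat.card_sigma, Nat.card_sigma]
  exact Finset.sum_le_sum fun a _ => h a

/-- Commuting pairs in a pair of fibres. -/
theorem fibre_pair_le {H X : Type*} [Group H] [Group X] [Finite H] (φ : H →* X) (x y : X) :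
    Nat.card {q : H × H // (φ q.1 = x ∧ φ q.2 = y) ∧ Commute q.1 q.2} ≤ cpn φ.ker := by
  have h1 : Nat.card {q : H × H // (φ q.1 = x ∧ φ q.2 = y) ∧ Commute q.1 q.2} =
      Nat.card (Σ g : {g : H // φ g = x}, {h : H // φ h = y ∧ Commute g.1 h}) :=
    Nat.card_congr
      { toFun := fun q => ⟨⟨q.1.1, q.2.1.1⟩, ⟨q.1.2, q.2.1.2, q.2.2⟩⟩
        invFun := fun s => ⟨(s.1.1, s.2.1), ⟨s.1.2, s.2.2.1⟩, s.2.2.2⟩
        left_inv := fun q => rfl
        right_inv := fun s => rfl }
  have h2 : Nat.card (Σ g : {g : H // φ g = x}, {h : H // φ h = y ∧ Commute g.1 h}) ≤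
      Nat.card (Σ g : {g : H // φ g = x}, {n : φ.ker // Commute g.1 (n : H)}) :=
    card_sigma_le fun g => fibre_le φ g.1 y
  have h3 : Nat.card (Σ g : {g : H // φ g = x}, {n : φ.ker // Commute g.1 (n : H)}) =
      Nat.card (Σ n : φ.ker, {g : H // φ g = x ∧ Commute (n : H) g}) :=
    Nat.card_congr
      { toFun := fun s => ⟨s.2.1, ⟨s.1.1, s.1.2, s.2.2.symm⟩⟩
        invFun := fun s => ⟨⟨s.2.1, s.2.2.1⟩, ⟨s.1, s.2.2.2.symm⟩⟩
        left_inv := fun q => rfl
        right_inv := fun s => rfl }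
  have h4 : Nat.card (Σ n : φ.ker, {g : H // φ g = x ∧ Commute (n : H) g}) ≤
      Nat.card (Σ n : φ.ker, {m : φ.ker // Commute (n : H) (m : H)}) :=
    card_sigma_le fun n => fibre_le φ (n : H) x
  have h5 : Nat.card (Σ n : φ.ker, {m : φ.ker // Commute (n : H) (m : H)}) = cpn φ.ker :=
    Nat.card_congr
      { toFun := fun s => ⟨(s.1, s.2.1), Subtype.ext s.2.2.eq⟩
        invFun := fun q => ⟨q.1.1, ⟨q.1.2, congrArg Subtype.val q.2.eq⟩⟩
        left_inv := fun q => rfl
        right_inv := fun s => rfl }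
  omega

/-- Gallagher's inequality, for the numbers of commuting pairs. -/
theorem cpn_le_mul {H X : Type*} [Group H] [Group X] [Finite H] (φ : H →* X) :
    cpn H ≤ cpn φ.range * cpn φ.ker := by
  have : Finite φ.range := Finite.of_surjective _ φ.rangeRestrict_surjective
  let f : {q : H × H // Commute q.1 q.2} → {q : φ.range × φ.range // Commute q.1 q.2} :=
    fun q => ⟨(φ.rangeRestrict q.1.1, φ.rangeRestrict q.1.2), q.2.map φ.rangeRestrict⟩
  have h1 : cpn H = Nat.card (Σ r : {q : φ.range × φ.range // Commute q.1 q.2},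
      {q // f q = r}) := Nat.card_congr (Equiv.sigmaFiberEquiv f).symm
  have := Fintype.ofFinite {q : φ.range × φ.range // Commute q.1 q.2}
  rw [h1, Nat.card_sigma]
  have h2 : ∀ r : {q : φ.range × φ.range // Commute q.1 q.2},
      Nat.card {q // f q = r} ≤ cpn φ.ker := by
    intro r
    refine le_trans ?_ (fibre_pair_le φ (r.1.1 : X) (r.1.2 : X))
    refine Nat.card_le_card_of_injective
      (fun q => ⟨q.1.1, ⟨?_, ?_⟩, q.1.2⟩) ?_
    · exact congrArg (fun z => ((z.1.1 : φ.range) : X)) q.2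
    · exact congrArg (fun z => ((z.1.2 : φ.range) : X)) q.2
    · intro a b hab
      have h3 := congrArg Subtype.val hab
      exact Subtype.ext (Subtype.ext h3)
  calc ∑ r, Nat.card {q // f q = r}
      ≤ ∑ _r : {q : φ.range × φ.range // Commute q.1 q.2}, cpn φ.ker :=
        Finset.sum_le_sum fun r _ => h2 r
    _ = cpn φ.range * cpn φ.ker := by
        rw [Finset.sum_const, smul_eq_mul, Finset.card_univ, ← Nat.card_eq_fintype_card]
        rfl

end Pool.Agent.R720.BC
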