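import Pool.Agent.R720.Codes

/-!
# The group `PΓL₂(9) = Aut(A₆)` as a group of permutations of ten points
-/

namespace Pool.Agent.R720.BC

/-- The group with two elements. -/
abbrev C2 := Multiplicative (ZMod 2)

/-- The ambient group. -/
abbrev Y := Equiv.Perm (Fin 10) × C2

/-- The code of an element. -/
def cd (y : Y) : ℕ :=
  (y.1 0 : ℕ) + 16 * (y.1 1 : ℕ) + 256 * (y.1 2 : ℕ) + 4096 * (y.1 3 : ℕ) + 65536 * (y.1 4 : ℕ) +
    1048576 * (y.1 5 : ℕ) + 16777216 * (y.1 6 : ℕ) + 268435456 * (y.1 7 : ℕ) +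
    4294967296 * (y.1 8 : ℕ) + 68719476736 * (y.1 9 : ℕ) +
    1099511627776 * (Multiplicative.toAdd y.2).val

theorem dg_cd (y : Y) (i : Fin 10) : dg (cd y) i = (y.1 i : ℕ) := by
  have h0 := (y.1 0).2
  have h1 := (y.1 1).2
  have h2 := (y.1 2).2
  have h3 := (y.1 3).2
  have h4 := (y.1 4).2
  have h5 := (y.1 5).2
  have h6 := (y.1 6).2
  have h7 := (y.1 7).2
  have h8 := (y.1 8).2
  have h9 := (y.1 9).2
  have h10 : (Multiplicative.toAdd y.2).val < 2 := ZMod.val_lt _
  unfold dg cd
  fin_cases i <;> simp <;> omega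

theorem dg_cd_ten (y : Y) : dg (cd y) 10 = (Multiplicative.toAdd y.2).val := by
  have h0 := (y.1 0).2
  have h1 := (y.1 1).2
  have h2 := (y.1 2).2
  have h3 := (y.1 3).2
  have h4 := (y.1 4).2
  have h5 := (y.1 5).2
  have h6 := (y.1 6).2
  have h7 := (y.1 7).2
  have h8 := (y.1 8).2
  have h9 := (y.1 9).2
  have h10 : (Multiplicative.toAdd y.2).val < 2 := ZMod.val_lt _
  unfold dg cd
  norm_num
  omega

theorem dg_cd_dg (x y : Y) (i : Fin 10) : dg (cd x) (dg (cd y) i) = (x.1 (y.1 i) : ℕ) := by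
  rw [dg_cd, dg_cd]

theorem cd_mul (x y : Y) : cd (x * y) = mulc (cd x) (cd y) := by
  have h0 := dg_cd_dg x y 0
  have h1 := dg_cd_dg x y 1
  have h2 := dg_cd_dg x y 2
  have h3 := dg_cd_dg x y 3
  have h4 := dg_cd_dg x y 4
  have h5 := dg_cd_dg x y 5
  have h6 := dg_cd_dg x y 6
  have h7 := dg_cd_dg x y 7
  have h8 := dg_cd_dg x y 8
  have h9 := dg_cd_dg x y 9
  have e0 : ((0 : Fin 10) : ℕ) = 0 := rfl
  have e1 : ((1 : Fin 10) : ℕ) = 1 := rfl
  have e2 : ((2 : Fin 10) : ℕ) = 2 := rfl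
  have e3 : ((3 : Fin 10) : ℕ) = 3 := rfl
  have e4 : ((4 : Fin 10) : ℕ) = 4 := rfl
  have e5 : ((5 : Fin 10) : ℕ) = 5 := rfl
  have e6 : ((6 : Fin 10) : ℕ) = 6 := rfl
  have e7 : ((7 : Fin 10) : ℕ) = 7 := rfl
  have e8 : ((8 : Fin 10) : ℕ) = 8 := rfl
  have e9 : ((9 : Fin 10) : ℕ) = 9 := rfl
  rw [e0] at h0
  rw [e1] at h1
  rw [e2] at h2
  rw [e3] at h3
  rw [e4] at h4
  rw [e5] at h5
  rw [e6] at h6
  rw [e7] at h7
  rw [e8] at h8
  rw [e9] at h9
  have h10 : (Multiplicative.toAdd (x * y).2).val =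
      ((Multiplicative.toAdd x.2).val + (Multiplicative.toAdd y.2).val) % 2 := by
    rw [Prod.snd_mul, toAdd_mul, ZMod.val_add]
  unfold mulc
  rw [h0, h1, h2, h3, h4, h5, h6, h7, h8, h9, dg_cd_ten, dg_cd_ten, ← h10]
  rfl

theorem cd_inj : Function.Injective cd := by
  intro x y h
  have h1 : ∀ i, x.1 i = y.1 i := by
    intro i
    apply Fin.ext
    rw [← dg_cd, ← dg_cd, h]
  have h2 : x.2 = y.2 := by
    have h3 : (Multiplicative.toAdd x.2).val = (Multiplicative.toAdd y.2).val := by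
      rw [← dg_cd_ten, ← dg_cd_ten, h]
    exact Multiplicative.toAdd.injective (ZMod.val_injective 2 h3)
  exact Prod.ext (Equiv.ext h1) h2

/-- Translation by `1`. -/
def gu1 : Y := (⟨![1, 2, 0, 4, 5, 3, 7, 8, 6, 9], ![2, 0, 1, 5, 3, 4, 8, 6, 7, 9],
  by decide, by decide⟩, Multiplicative.ofAdd 0)

/-- Translation by `i`. -/
def gu3 : Y := (⟨![3, 4, 5, 6, 7, 8, 0, 1, 2, 9], ![6, 7, 8, 0, 1, 2, 3, 4, 5, 9],
  by decide, by decide⟩, Multiplicative.ofAdd 0)

/-- Multiplication by `1 + i`. -/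
def gt : Y := (⟨![0, 4, 8, 5, 6, 1, 7, 2, 3, 9], ![0, 5, 7, 8, 1, 3, 4, 6, 2, 9],
  by decide, by decide⟩, Multiplicative.ofAdd 0)

/-- The Frobenius map. -/
def gs : Y := (⟨![0, 1, 2, 6, 7, 8, 3, 4, 5, 9], ![0, 1, 2, 6, 7, 8, 3, 4, 5, 9],
  by decide, by decide⟩, Multiplicative.ofAdd 1)

/-- The map `x ↦ -1/x`. -/
def gw : Y := (⟨![9, 2, 1, 3, 7, 8, 6, 4, 5, 0], ![9, 2, 1, 3, 7, 8, 6, 4, 5, 0],
  by decide, by decide⟩, Multiplicative.ofAdd 0)

theorem cd_gu1 : cd gu1 = 646513508385 := by decide +kernel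
theorem cd_gu3 : cd gu3 = 627342533955 := by decide +kernel
theorem cd_gt : cd gt = 632015968320 := by decide +kernel
theorem cd_gs : cd gs = 1740594700816 := by decide +kernel
theorem cd_gw : cd gw = 22658101545 := by decide +kernel
theorem cd_one : cd 1 = onec := by decide +kernel

/-- The generators. -/
def gens : Set Y := {gu1, gu3, gt, gs, gw}

/-- `PΓL₂(9)` as a group of permutations of the projective line, together with the homomorphism
to the group with two elements with kernel `PGL₂(9)`. -/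
def Gam : Subgroup Y := Subgroup.closure gens

/-- The list of all codes. -/
def Lf : List ℕ := Lc.flatten.flatten

theorem mem_of_memN {c : ℕ} {l : List ℕ} (h : memN c l = true) : c ∈ l := by
  unfold memN at h
  rw [List.any_eq_true] at h
  obtain ⟨x, hx, hb⟩ := h
  rw [Nat.eq_of_beq_eq_true hb]
  exact hx

theorem mem_getD {α : Type} (l : List (List α)) (i : ℕ) (c : α) (h : c ∈ l.getD i []) :
    ∃ r ∈ l, c ∈ r := by
  by_cases hi : i < l.length
  · rw [List.getD_eq_getElem _ _ hi] at h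
    exact ⟨_, List.getElem_mem hi, h⟩
  · rw [List.getD_eq_default _ _ (by omega)] at h
    simp at h

theorem mem_of_memL {c : ℕ} (h : memL c = true) : c ∈ Lf := by
  unfold memL at h
  have h1 := mem_of_memN h
  obtain ⟨r, hr, hc⟩ := mem_getD _ _ _ h1
  obtain ⟨s, hs, hr'⟩ := mem_getD _ _ _ hr
  unfold Lf
  rw [List.mem_flatten]
  refine ⟨r, ?_, hc⟩
  rw [List.mem_flatten]
  exact ⟨s, hs, hr'⟩

theorem closed (c : ℕ) (hc : c ∈ Lf) (s : ℕ) (hs : s ∈ gensC) : mulc s c ∈ Lf := by
  apply mem_of_memL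
  unfold Lf at hc
  rw [List.mem_flatten] at hc
  obtain ⟨r', hr', hc'⟩ := hc
  rw [List.mem_flatten] at hr'
  obtain ⟨r, hr, hr''⟩ := hr'
  have h := closed_check
  rw [List.all_eq_true] at h
  have h1 := h r hr
  rw [List.all_eq_true] at h1
  have h2 := h1 r' hr''
  rw [List.all_eq_true] at h2
  have h3 := h2 c hc'
  rw [List.all_eq_true] at h3
  exact h3 s hs

theorem onec_mem : onec ∈ Lf := mem_of_memL (by decide +kernel)

theorem cd_mem_of_mem (x : Y) (hx : x ∈ Gam) : cd x ∈ Lf := by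
  have hx' : x ∈ Submonoid.closure gens := by
    have h := Subgroup.closure_toSubmonoid_of_finite (s := gens)
    rw [← h]
    exact hx
  induction hx' using Submonoid.closure_induction_left with
  | one => rw [cd_one]; exact onec_mem
  | mul_left s hs y hy ih =>
    rw [cd_mul]
    apply closed _ (ih _)
    · unfold gens at hs
      simp only [Set.mem_insert_iff, Set.mem_singleton_iff] at hs
      rcases hs with rfl | rfl | rfl | rfl | rfl
      · rw [cd_gu1]; simp [gensC]
      · rw [cd_gu3]; simp [gensC]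
      · rw [cd_gt]; simp [gensC]
      · rw [cd_gs]; simp [gensC]
      · rw [cd_gw]; simp [gensC]
    · have h := Subgroup.closure_toSubmonoid_of_finite (s := gens)
      rw [← h] at hy
      exact hy

/-- A number which is the code of an element of the group. -/
def IsReal (c : ℕ) : Prop := ∃ x ∈ Gam, cd x = c

theorem IsReal.mul {a b : ℕ} (ha : IsReal a) (hb : IsReal b) : IsReal (mulc a b) := by
  obtain ⟨x, hx, rfl⟩ := ha
  obtain ⟨y, hy, rfl⟩ := hb
  exact ⟨x * y, mul_mem hx hy, cd_mul x y⟩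

theorem real_one : IsReal onec := ⟨1, one_mem _, cd_one⟩
theorem real_u1 : IsReal 646513508385 :=
  ⟨gu1, Subgroup.subset_closure (by simp [gens]), cd_gu1⟩
theorem real_u3 : IsReal 627342533955 :=
  ⟨gu3, Subgroup.subset_closure (by simp [gens]), cd_gu3⟩
theorem real_t : IsReal 632015968320 :=
  ⟨gt, Subgroup.subset_closure (by simp [gens]), cd_gt⟩
theorem real_s : IsReal 1740594700816 :=
  ⟨gs, Subgroup.subset_closure (by simp [gens]), cd_gs⟩
theorem real_w : IsReal wc :=
  ⟨gw, Subgroup.subset_closure (by simp [gens]), cd_gw⟩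

theorem real_Uc (u : ℕ) (hu : u ∈ Uc) : IsReal u := by
  have h1 := real_u1
  have h3 := real_u3
  have h2 := h1.mul h1
  have h6 := h3.mul h3
  have h4 := h3.mul h1
  have h5 := h4.mul h1
  have h7 := h6.mul h1
  have h8 := h7.mul h1
  have e2 : mulc 646513508385 646513508385 = 650289303810 := by decide +kernel
  have e6 : mulc 627342533955 627342533955 = 641076365430 := by decide +kernel
  have e4 : mulc 627342533955 646513508385 = 619035784020 := by decide +kernel
  have e5 : mulc 619035784020 646513508385 = 622811579445 := by decide +kernel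
  have e7 : mulc 641076365430 646513508385 = 632769615495 := by decide +kernel
  have e8 : mulc 632769615495 646513508385 = 636545410920 := by decide +kernel
  rw [e2] at h2
  rw [e6] at h6 h7 h8
  rw [e4] at h4 h5
  rw [e5] at h5
  rw [e7] at h7 h8
  rw [e8] at h8
  have h0 := real_one
  unfold onec at h0
  unfold Uc at hu
  simp only [List.mem_cons, List.not_mem_nil, or_false] at hu
  rcases hu with rfl | rfl | rfl | rfl | rfl | rfl | rfl | rfl | rfl <;> assumption

theorem real_Tc (u : ℕ) (hu : u ∈ Tc) : IsReal u := by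
  have h0 := real_one
  unfold onec at h0
  have h1 := real_t
  have h2 := h1.mul h1
  have h3 := h1.mul h2
  have h4 := h1.mul h3
  have h5 := h1.mul h4
  have h6 := h1.mul h5
  have h7 := h1.mul h6
  have e2 : mulc 632015968320 632015968320 = 642135823200 := by decide +kernel
  have e3 : mulc 632015968320 642135823200 = 623716222320 := by decide +kernel
  have e4 : mulc 632015968320 623716222320 = 637055557920 := by decide +kernel
  have e5 : mulc 632015968320 637055557920 = 644599739520 := by decide +kernel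
  have e6 : mulc 632015968320 644599739520 = 649639306800 := by decide +kernel
  have e7 : mulc 632015968320 649639306800 = 628746192720 := by decide +kernel
  rw [e2] at h2 h3 h4 h5 h6 h7
  rw [e3] at h3 h4 h5 h6 h7
  rw [e4] at h4 h5 h6 h7
  rw [e5] at h5 h6 h7
  rw [e6] at h6 h7
  rw [e7] at h7
  unfold Tc at hu
  simp only [List.mem_cons, List.not_mem_nil, or_false] at hu
  rcases hu with rfl | rfl | rfl | rfl | rfl | rfl | rfl | rfl <;> assumption

theorem real_Sc (u : ℕ) (hu : u ∈ Sc) : IsReal u := by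
  have h0 := real_one
  unfold onec at h0
  have h1 := real_s
  unfold Sc at hu
  simp only [List.mem_cons, List.not_mem_nil, or_false] at hu
  rcases hu with rfl | rfl <;> assumption

theorem real_LB (r : List ℕ) (hr : r ∈ LB) (c : ℕ) (hc : c ∈ r) : IsReal c := by
  unfold LB at hr
  rw [List.mem_map] at hr
  obtain ⟨u, hu, rfl⟩ := hr
  rw [List.mem_flatMap] at hc
  obtain ⟨t, ht, hc⟩ := hc
  rw [List.mem_map] at hc
  obtain ⟨s, hs, rfl⟩ := hc
  exact (real_Uc u hu).mul ((real_Tc t ht).mul (real_Sc s hs))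

theorem real_of_mem (c : ℕ) (hc : c ∈ Lf) : IsReal c := by
  unfold Lf at hc
  rw [← LL_eq, List.mem_flatten] at hc
  obtain ⟨r, hr, hc⟩ := hc
  rw [List.mem_flatten] at hr
  obtain ⟨s, hs, hr⟩ := hr
  unfold LL at hs
  rw [List.mem_append] at hs
  rcases hs with hs | hs
  · rw [List.mem_map] at hs
    obtain ⟨u, hu, rfl⟩ := hs
    rw [List.mem_map] at hr
    obtain ⟨r', hr', rfl⟩ := hr
    rw [List.mem_map] at hc
    obtain ⟨b, hb, rfl⟩ := hc
    exact (real_Uc u hu).mul (real_w.mul (real_LB r' hr' b hb))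
  · rw [List.mem_singleton] at hs
    subst hs
    exact real_LB r hr c hc

/-- Position of a code in the list. -/
def posc (c : ℕ) : ℕ :=
  144 * dg c 9 + 16 * (bif Nat.beq (dg c 9) 9 then dg c 0 else dg wc (dg (Ui.getD (dg c 9) 0) (dg c 0))) +
    ((Lc.getD (dg c 9) []).getD
      (bif Nat.beq (dg c 9) 9 then dg c 0 else dg wc (dg (Ui.getD (dg c 9) 0) (dg c 0))) []).findIdx
      (fun x => Nat.beq c x)

theorem posc_eq : Lf.map posc = List.range 1440 := by decide +kernel

theorem Lf_nodup : Lf.Nodup := by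
  have h : (Lf.map posc).Nodup := by rw [posc_eq]; exact List.nodup_range
  exact List.Nodup.of_map _ h

theorem Lf_length : Lf.length = 1440 := by
  have h := congrArg List.length posc_eq
  rw [List.length_map, List.length_range] at h
  exact h

end Pool.Agent.R720.BC
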