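import Mathlib

set_option autoImplicit false

namespace Pool.Agent.R720.SierpFour

open Finset

/-- the product of `2` and the covering primes -/
def NS : ℕ := 7378697629483820646

/-- the residue of `m` modulo `NS` -/
def r0 : ℕ := 7168617157167097825

/-- the covering primes `p` and the residues of `m ^ 4` modulo `p` -/
def S : List (ℕ × ℕ) := [(3, 1), (17, 1), (257, 1), (65537, 1), (641, 1), (6700417, 6700416)]

lemma NS_eq : NS = 2 * 3 * 17 * 257 * 65537 * 641 * 6700417 := by unfold NS; norm_num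

lemma S_dvd : ∀ pc ∈ S, pc.1 ∣ NS := by unfold S NS; decide

lemma S_r : ∀ pc ∈ S, r0 ^ 4 % pc.1 = pc.2 % pc.1 := by unfold S r0; decide

lemma S_two : ∀ pc ∈ S, 2 ^ 64 % pc.1 = 1 % pc.1 := by unfold S; decide

lemma S_le : ∀ pc ∈ S, pc.1 ≤ 6700417 := by unfold S; decide

lemma cover : ∀ i < 64, i % 4 ≠ 2 → ∃ pc ∈ S, (pc.2 * 2 ^ i + 1) % pc.1 = 0 := by
  unfold S; decide

lemma uncover : ∀ i < 64, i % 4 = 2 → ∀ pc ∈ S, (pc.2 * 2 ^ i + 1) % pc.1 ≠ 0 := by
  unfold S; decide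

lemma prime_S : ∀ pc ∈ S, pc.1.Prime := by
  intro pc h
  simp only [S, List.mem_cons, List.not_mem_nil, or_false] at h
  rcases h with h | h | h | h | h | h <;> subst h <;> norm_num

/-- a prime dividing `NS` is `2` or a covering prime -/
lemma prime_dvd_NS {q : ℕ} (hq : q.Prime) (h : q ∣ NS) : q = 2 ∨ ∃ pc ∈ S, pc.1 = q := by
  rw [NS_eq] at h
  simp only [hq.dvd_mul] at h
  have key : ∀ p : ℕ, p.Prime → q ∣ p → q = p := fun p hp hd =>
    (Nat.prime_dvd_prime_iff_eq hq hp).1 hd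
  simp only [S, List.mem_cons, List.not_mem_nil, or_false]
  rcases h with (((((h | h) | h) | h) | h) | h) | h
  · exact Or.inl (key 2 (by norm_num) h)
  · exact Or.inr ⟨(3, 1), by simp, (key 3 (by norm_num) h).symm⟩
  · exact Or.inr ⟨(17, 1), by simp, (key 17 (by norm_num) h).symm⟩
  · exact Or.inr ⟨(257, 1), by simp, (key 257 (by norm_num) h).symm⟩
  · exact Or.inr ⟨(65537, 1), by simp, (key 65537 (by norm_num) h).symm⟩
  · exact Or.inr ⟨(641, 1), by simp, (key 641 (by norm_num) h).symm⟩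
  · exact Or.inr ⟨(6700417, 6700416), by simp, (key 6700417 (by norm_num) h).symm⟩

/-- the terms modulo a covering prime depend only on `k` modulo `64` -/
lemma term_mod {m : ℕ} (hm : m ≡ r0 [MOD NS]) (k : ℕ) {pc : ℕ × ℕ} (h : pc ∈ S) :
    (m ^ 4 * 2 ^ k + 1) % pc.1 = (pc.2 * 2 ^ (k % 64) + 1) % pc.1 := by
  have h1 : m ≡ r0 [MOD pc.1] := hm.of_dvd (S_dvd pc h)
  have h2 : m ^ 4 ≡ pc.2 [MOD pc.1] := (h1.pow 4).trans (S_r pc h)
  have h3 : 2 ^ k ≡ 2 ^ (k % 64) [MOD pc.1] := by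
    conv_lhs => rw [← Nat.mod_add_div k 64, pow_add, pow_mul]
    have h4 : (2 ^ 64) ^ (k / 64) ≡ 1 ^ (k / 64) [MOD pc.1] := Nat.ModEq.pow _ (S_two pc h)
    rw [one_pow] at h4
    simpa using (Nat.ModEq.refl (2 ^ (k % 64))).mul h4
  exact (h2.mul h3).add_right 1

/-- every term is composite -/
lemma composite {m : ℕ} (hm : m ≡ r0 [MOD NS]) (k : ℕ) : 1 < m ^ 4 * 2 ^ k + 1 ∧
    ¬ (m ^ 4 * 2 ^ k + 1).Prime := by
  have hm1 : 6700417 < m := by
    have h1 : m % NS = r0 := by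
      have := hm
      unfold Nat.ModEq at this
      rw [this]
      unfold r0 NS
      norm_num
    have h2 : m % NS ≤ m := Nat.mod_le _ _
    rw [h1] at h2
    unfold r0 at h2
    omega
  have hbig : m ≤ m ^ 4 * 2 ^ k := by
    have a1 : m ≤ m ^ 4 := Nat.le_self_pow (by norm_num) m
    have a2 : 1 ≤ 2 ^ k := Nat.one_le_two_pow
    calc m ≤ m ^ 4 := a1
      _ = m ^ 4 * 1 := (mul_one _).symm
      _ ≤ m ^ 4 * 2 ^ k := Nat.mul_le_mul_left _ a2
  refine ⟨by omega, fun hp => ?_⟩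
  by_cases hk : k % 4 = 2
  · obtain ⟨j, rfl⟩ : ∃ j, k = 4 * j + 2 := ⟨k / 4, by omega⟩
    set x := m * 2 ^ j with hx
    have hx2 : 2 ≤ x := by
      have : 1 ≤ 2 ^ j := Nat.one_le_two_pow
      calc 2 ≤ m := by omega
        _ = m * 1 := (mul_one _).symm
        _ ≤ m * 2 ^ j := Nat.mul_le_mul_left _ this
    have h1 : m ^ 4 * 2 ^ (4 * j + 2) + 1 = 4 * x ^ 4 + 1 := by
      rw [hx, mul_pow, pow_add, pow_mul, ← pow_mul 2 j 4, mul_comm j 4, pow_mul]
      ring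
    obtain ⟨y, hy⟩ : ∃ y, x = y + 1 := ⟨x - 1, by omega⟩
    have hy1 : 1 ≤ y := by omega
    have h2 : 4 * x ^ 4 + 1 = (2 * x ^ 2 + 2 * x + 1) * (2 * y ^ 2 + 2 * y + 1) := by
      rw [hy]; ring
    rw [h1, h2] at hp
    refine Nat.not_prime_mul ?_ ?_ hp
    · nlinarith
    · nlinarith
  · obtain ⟨pc, hpc, h0⟩ := cover (k % 64) (Nat.mod_lt _ (by norm_num)) (by omega)
    rw [← term_mod hm k hpc] at h0
    have hd : pc.1 ∣ m ^ 4 * 2 ^ k + 1 := Nat.dvd_of_mod_eq_zero h0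
    have he := (Nat.prime_dvd_prime_iff_eq (prime_S pc hpc) hp).1 hd
    have := S_le pc hpc
    omega

/-- the main result -/
theorem main (B : ℕ) : ∃ Q r : ℕ, 0 < Q ∧ ∀ m : ℕ, m ≡ r [MOD Q] →
    Odd (m ^ 4) ∧ (∀ k, 1 < m ^ 4 * 2 ^ k + 1 ∧ ¬ (m ^ 4 * 2 ^ k + 1).Prime) ∧
    (∀ k, k % 4 = 2 → B < (m ^ 4 * 2 ^ k + 1).minFac) ∧
    (∀ P : Finset ℕ, (∀ p ∈ P, p.Prime) → (∀ k, 1 ≤ k → ∃ p ∈ P, p ∣ m ^ 4 * 2 ^ k + 1) →
      B < (P.filter (fun p => B < p)).card) := by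
  set Y : ℕ := 2 ^ (4 * B) + B with hY
  have hBY : B ≤ Y := Nat.le_add_left _ _
  set M : ℕ := ∏ q ∈ (Finset.range (Y + 1)).filter (fun q => q.Prime ∧ Nat.Coprime q NS), q
    with hM
  have hMpos : 0 < M := Finset.prod_pos fun q hq => (mem_filter.1 hq).2.1.pos
  have hco : Nat.Coprime M NS := Nat.Coprime.prod_left fun q hq => (mem_filter.1 hq).2.2
  obtain ⟨r, hr0, hrr⟩ := Nat.chineseRemainder hco 0 r0
  refine ⟨M * NS, r, Nat.mul_pos hMpos (by unfold NS; norm_num), fun m hm => ?_⟩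
  have hm0 : m ≡ 0 [MOD M] := (hm.of_dvd (dvd_mul_right M NS)).trans hr0
  have hmr : m ≡ r0 [MOD NS] := (hm.of_dvd (dvd_mul_left NS M)).trans hrr
  have hMm : M ∣ m := (Nat.modEq_zero_iff_dvd).1 hm0
  have hodd : Odd m := by
    have h1 : m ≡ r0 [MOD 2] := hmr.of_dvd (by rw [NS_eq]; exact ⟨3 * 17 * 257 * 65537 * 641 * 6700417, by norm_num⟩)
    have h2 : m % 2 = r0 % 2 := h1
    rw [Nat.odd_iff, h2]
    unfold r0; norm_num
  have hbig : ∀ k, k % 4 = 2 → ∀ q : ℕ, q.Prime → q ∣ m ^ 4 * 2 ^ k + 1 → Y < q := by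
    intro k hk q hq hd
    by_contra hcon
    push Not at hcon
    by_cases hc : Nat.Coprime q NS
    · have h1 : q ∣ M := by
        rw [hM]
        exact dvd_prod_of_mem (fun q => q) (mem_filter.2 ⟨mem_range.2 (by omega), hq, hc⟩)
      have h2 : q ∣ m ^ 4 * 2 ^ k := ((h1.trans hMm).trans (dvd_pow_self m (by norm_num))).mul_right _
      have h3 : q ∣ 1 := (Nat.dvd_add_right h2).1 hd
      exact hq.one_lt.ne' (Nat.dvd_one.1 h3)
    · have h1 : q ∣ NS := by
        by_contra h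
        exact hc ((Nat.Prime.coprime_iff_not_dvd hq).2 h)
      rcases prime_dvd_NS hq h1 with h | ⟨pc, hpc, rfl⟩
      · subst h
        have hk0 : k ≠ 0 := by omega
        have h2 : 2 ∣ m ^ 4 * 2 ^ k := (dvd_pow_self 2 hk0).mul_left _
        have h3 : 2 ∣ 1 := (Nat.dvd_add_right h2).1 hd
        omega
      · have h2 := uncover (k % 64) (Nat.mod_lt _ (by norm_num)) (by omega) pc hpc
        rw [← term_mod hmr k hpc] at h2
        exact h2 (Nat.mod_eq_zero_of_dvd hd)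
  refine ⟨hodd.pow, composite hmr, fun k hk => ?_, fun P hP hcov' => ?_⟩
  · have h1 := (composite hmr k).1
    exact lt_of_le_of_lt hBY (hbig k hk _ (Nat.minFac_prime h1.ne') (Nat.minFac_dvd _))
  · have hcov : ∀ k : ℕ, ∃ p ∈ P, p ∣ m ^ 4 * 2 ^ (4 * k + 2) + 1 := fun k =>
      hcov' (4 * k + 2) (by omega)
    choose f hf1 hf2 using hcov
    have hinj : Set.InjOn f (Finset.range (B + 1)) := by
      have aux : ∀ i j : ℕ, i < j → j < B + 1 → f i = f j → False := by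
        intro i j hij hj he
        have hq := hP _ (hf1 i)
        have hi := hf2 i
        have hjj := hf2 j
        rw [← he] at hjj
        have hYq := hbig (4 * i + 2) (by omega) _ hq hi
        obtain ⟨t, rfl⟩ : ∃ t, j = i + t := ⟨j - i, by omega⟩
        have h2 : f i ∣ 2 ^ (4 * t) - 1 := by
          have e1 : 1 ≤ 2 ^ (4 * t) := Nat.one_le_two_pow
          have e2 : (m ^ 4 * 2 ^ (4 * i + 2) + 1) * 2 ^ (4 * t) =
              (m ^ 4 * 2 ^ (4 * (i + t) + 2) + 1) + (2 ^ (4 * t) - 1) := by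
            rw [show 4 * (i + t) + 2 = (4 * i + 2) + 4 * t by ring, pow_add 2 (4 * i + 2)]
            have : (m ^ 4 * 2 ^ (4 * i + 2) + 1) * 2 ^ (4 * t) =
              m ^ 4 * (2 ^ (4 * i + 2) * 2 ^ (4 * t)) + 2 ^ (4 * t) := by ring
            omega
          have e3 : f i ∣ (m ^ 4 * 2 ^ (4 * (i + t) + 2) + 1) + (2 ^ (4 * t) - 1) := by
            rw [← e2]; exact hi.mul_right _
          exact (Nat.dvd_add_right hjj).1 e3
        have h3 : 0 < 2 ^ (4 * t) - 1 := by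
          have : 2 ^ 1 ≤ 2 ^ (4 * t) := Nat.pow_le_pow_right (by norm_num) (by omega)
          omega
        have h4 := Nat.le_of_dvd h3 h2
        have h5 : 2 ^ (4 * t) ≤ 2 ^ (4 * B) := Nat.pow_le_pow_right (by norm_num) (by omega)
        omega
      intro i hi j hj he
      rw [coe_range, Set.mem_Iio] at hi hj
      rcases lt_trichotomy i j with h | h | h
      · exact (aux i j h hj he).elim
      · exact h
      · exact (aux j i h hi he.symm).elim
    have hsub : (Finset.range (B + 1)).image f ⊆ P.filter (fun p => B < p) := by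
      intro p hp
      obtain ⟨i, -, rfl⟩ := mem_image.1 hp
      exact mem_filter.2 ⟨hf1 i, lt_of_le_of_lt hBY (hbig (4 * i + 2) (by omega) _ (hP _ (hf1 i)) (hf2 i))⟩
    have hcard := card_le_card hsub
    rw [card_image_of_injOn hinj, card_range] at hcard
    omega

end Pool.Agent.R720.SierpFour
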