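import Pool.Agent.R720.Gen

/-!
# Commuting pairs in subgroups
-/

namespace Pool.Agent.R720.BC

open scoped Classical

/-- The elements of a subgroup as a finite set. -/
noncomputable def fs {X : Type*} [Group X] [Fintype X] (R : Subgroup X) : Finset X :=
  Finset.univ.filter fun x => x ∈ R

theorem mem_fs {X : Type*} [Group X] [Fintype X] (R : Subgroup X) (x : X) : x ∈ fs R ↔ x ∈ R := by
  simp [fs]

theorem card_fs {X : Type*} [Group X] [Fintype X] (R : Subgroup X) :
    (fs R).card = Nat.card R := by
  rw [Nat.subtype_card (fs R) (mem_fs R)]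

/-- The number of elements of `A` which commute with `x`. -/
noncomputable def cz {X : Type*} [Group X] (A : Finset X) (x : X) : ℕ :=
  (A.filter fun y => x * y = y * x).card

theorem cz_mono {X : Type*} [Group X] {A B : Finset X} (h : A ⊆ B) (x : X) : cz A x ≤ cz B x :=
  Finset.card_le_card (Finset.filter_subset_filter _ h)

theorem cz_le_card {X : Type*} [Group X] (A : Finset X) (x : X) : cz A x ≤ A.card :=
  Finset.card_filter_le _ _

theorem cz_eq_card {X : Type*} [Group X] {A : Finset X} {x : X} (h : ∀ y ∈ A, x * y = y * x) :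
    cz A x = A.card := by
  unfold cz
  rw [Finset.filter_true_of_mem h]

theorem cpn_sub {X : Type*} [Group X] [Fintype X] (R : Subgroup X) :
    cpn R = ∑ x ∈ fs R, cz (fs R) x := by
  have h1 : cpn R = Nat.card (Σ x : R, {y : X // y ∈ R ∧ (x : X) * y = y * x}) :=
    Nat.card_congr
      { toFun := fun q => ⟨q.1.1, ⟨q.1.2, q.1.2.2, congrArg Subtype.val q.2.eq⟩⟩
        invFun := fun s => ⟨(s.1, ⟨s.2.1, s.2.2.1⟩), Subtype.ext s.2.2.2⟩
        left_inv := fun q => rfl
        right_inv := fun s => rfl }
  rw [h1, Nat.card_sigma, Finset.sum_subtype (fs R) (mem_fs R)]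
  refine Finset.sum_congr rfl fun x _ => ?_
  unfold cz
  rw [Nat.subtype_card ((fs R).filter fun y => (x : X) * y = y * x)]
  intro y
  rw [Finset.mem_filter, mem_fs]

theorem cpn_le_sum {X : Type*} [Group X] [Fintype X] (R : Subgroup X) (A : Finset X)
    (hA : fs R ⊆ A) : cpn R ≤ ∑ x ∈ fs R, min (Nat.card R) (cz A x) := by
  rw [cpn_sub]
  refine Finset.sum_le_sum fun x _ => le_min ?_ (cz_mono hA x)
  rw [← card_fs]
  exact cz_le_card _ _

theorem cpn_le_sq {X : Type*} [Group X] [Fintype X] (R : Subgroup X) :
    cpn R ≤ Nat.card R * Nat.card R := by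
  have h := cpn_le_sum R Finset.univ (Finset.subset_univ _)
  calc cpn R ≤ ∑ x ∈ fs R, min (Nat.card R) (cz Finset.univ x) := h
    _ ≤ ∑ _x ∈ fs R, Nat.card R := Finset.sum_le_sum fun x _ => min_le_left _ _
    _ = Nat.card R * Nat.card R := by rw [Finset.sum_const, smul_eq_mul, card_fs]

/-- The bound used for subgroups of order `20`. -/
theorem cpn_le_of_excess {X : Type*} [Group X] [Fintype X] (R : Subgroup X) (A : Finset X)
    (hA : fs R ⊆ A) (n k s : ℕ) (hn : Nat.card R = n)
    (hs : ∑ x ∈ A, (min n (cz A x) - k) ≤ s) : cpn R ≤ k * n + s := by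
  subst hn
  calc cpn R ≤ ∑ x ∈ fs R, min (Nat.card R) (cz A x) := cpn_le_sum R A hA
    _ ≤ ∑ x ∈ fs R, (k + (min (Nat.card R) (cz A x) - k)) :=
        Finset.sum_le_sum fun x _ => by omega
    _ = k * Nat.card R + ∑ x ∈ fs R, (min (Nat.card R) (cz A x) - k) := by
        rw [Finset.sum_add_distrib, Finset.sum_const, smul_eq_mul, card_fs, mul_comm]
    _ ≤ k * Nat.card R + ∑ x ∈ A, (min (Nat.card R) (cz A x) - k) :=
        Nat.add_le_add_left (Finset.sum_le_sum_of_subset hA) _
    _ ≤ k * Nat.card R + s := Nat.add_le_add_left hs _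

/-- A non-abelian group of order `16` has at most `160` commuting pairs. -/
theorem cpn_sixteen {X : Type*} [Group X] [Finite X] (h16 : Nat.card X = 16)
    (hna : ¬ ∀ a b : X, a * b = b * a) : cpn X ≤ 160 := by
  have hft := Fintype.ofFinite X
  have hZ4 : Nat.card (Subgroup.center X) ≤ 4 := by
    by_contra hlt
    have hdvd : Nat.card (Subgroup.center X) ∣ 16 := by
      rw [← h16]; exact Subgroup.card_subgroup_dvd_card _
    have hmul : Nat.card (Subgroup.center X) * (Subgroup.center X).index = 16 := by
      rw [← h16]; exact Subgroup.card_mul_index _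
    have hidx : (Subgroup.center X).index ≤ 2 := by
      have h8 : 8 ≤ Nat.card (Subgroup.center X) := by
        have hle := Nat.le_of_dvd (by norm_num) hdvd
        by_contra h8
        interval_cases hc : Nat.card (Subgroup.center X) <;> omega
      by_contra h3
      have : 8 * 3 ≤ Nat.card (Subgroup.center X) * (Subgroup.center X).index :=
        Nat.mul_le_mul h8 (by omega)
      omega
    have hpos : 0 < (Subgroup.center X).index := Nat.pos_of_ne_zero (by
      intro h0; rw [h0] at hmul; omega)
    have hcyc : IsCyclic (X ⧸ Subgroup.center X) := by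
      have hcard : Nat.card (X ⧸ Subgroup.center X) = (Subgroup.center X).index := rfl
      interval_cases hi : (Subgroup.center X).index
      · have : Subsingleton (X ⧸ Subgroup.center X) :=
          (Nat.card_eq_one_iff_unique.1 hcard).1
        exact isCyclic_of_subsingleton
      · have : Fact (Nat.Prime 2) := ⟨Nat.prime_two⟩
        exact isCyclic_of_prime_card hcard
    apply hna
    intro a b
    have hc := MonoidHom.isMulCommutative_of_isCyclic_of_ker_le_center
      (QuotientGroup.mk' (Subgroup.center X)) (by rw [QuotientGroup.ker_mk'])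
    exact hc.is_comm.comm a b
  have htop : cpn X = cpn (⊤ : Subgroup X) := cpn_congr Subgroup.topEquiv.symm
  have hfs : fs (⊤ : Subgroup X) = Finset.univ := by
    ext x; simp [mem_fs]
  rw [htop, cpn_sub, hfs]
  have hb : ∀ x ∈ (Finset.univ : Finset X), cz Finset.univ x ≤
      8 + (if x ∈ Subgroup.center X then 8 else 0) := by
    intro x _
    split_ifs with hx
    · have := cz_le_card (Finset.univ : Finset X) x
      rw [Finset.card_univ, ← Nat.card_eq_fintype_card, h16] at this
      exact this
    · have h1 : cz (Finset.univ : Finset X) x = Nat.card (Subgroup.centralizer ({x} : Set X)) := by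
        unfold cz
        rw [← card_fs]
        congr 1
        ext y
        rw [Finset.mem_filter, mem_fs, Subgroup.mem_centralizer_singleton_iff]
        simp only [Finset.mem_univ, true_and]
        exact eq_comm
      rw [h1]
      have hdvd : Nat.card (Subgroup.centralizer ({x} : Set X)) ∣ 16 := by
        rw [← h16]; exact Subgroup.card_subgroup_dvd_card _
      have hne : Nat.card (Subgroup.centralizer ({x} : Set X)) ≠ 16 := by
        intro h
        apply hx
        have htop : Subgroup.centralizer ({x} : Set X) = ⊤ := by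
          apply Subgroup.eq_top_of_card_eq
          rw [h, h16]
        rw [Subgroup.mem_center_iff]
        intro g
        have hg : g ∈ Subgroup.centralizer ({x} : Set X) := by rw [htop]; trivial
        rw [Subgroup.mem_centralizer_singleton_iff] at hg
        exact hg
      have hle := Nat.le_of_dvd (by norm_num) hdvd
      interval_cases hc : Nat.card (Subgroup.centralizer ({x} : Set X)) <;> omega
  have h5 : ∑ x : X, (if x ∈ Subgroup.center X then 8 else 0) =
      8 * Nat.card (Subgroup.center X) := by
    rw [← Finset.sum_filter, Finset.sum_const, smul_eq_mul, mul_comm]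
    congr 1
    exact (Nat.subtype_card _ (by intro x; simp)).symm
  calc ∑ x : X, cz Finset.univ x
      ≤ ∑ x : X, (8 + (if x ∈ Subgroup.center X then 8 else 0)) := Finset.sum_le_sum hb
    _ = 8 * 16 + 8 * Nat.card (Subgroup.center X) := by
        rw [Finset.sum_add_distrib, Finset.sum_const, Finset.card_univ,
          ← Nat.card_eq_fintype_card, h16, h5, smul_eq_mul]
    _ ≤ 160 := by omega

end Pool.Agent.R720.BC
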