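import Pool.Agent.R720.Grp
import Pool.Agent.R720.Sub1

/-!
# The subgroups of `PΓL₂(9)` of order prime to `3`: computations
-/

namespace Pool.Agent.R720.BC

open scoped Classical

/-- Codes of the elements of the Sylow `2`-subgroup. -/
def LPl : List ℕ := [22658101545, 1135806275881, 13222970745, 1109849621881, 35726304105,
  1130692416361, 9485514825, 1125669623881, 32267133465, 1118142214681, 26442155865,
  1104685467481, 19098244665, 1123155387961, 6026318985, 1113018758281, 654820258320,
  1740594700816, 632015968320, 1723979692096, 642135823200, 1737068389216, 623716222320,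
  1744361981296, 637055557920, 1750304370976, 644599739520, 1727505978496, 649639306800,
  1753729996336, 628746192720, 1731276982096]

/-- Codes of the elements of the Sylow `2`-subgroup which are in `PGL₂(9)`. -/
def LP0l : List ℕ := [22658101545, 13222970745, 35726304105, 9485514825, 32267133465,
  26442155865, 19098244665, 6026318985, 654820258320, 632015968320, 642135823200, 623716222320,
  637055557920, 644599739520, 649639306800, 628746192720]

/-- Codes of the elements normalizing the subgroup of order `5`. -/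
def LMl : List ℕ := [19098244665, 14655231810, 1134513297751, 1123523236486, 109578749220,
  1199194637416, 1195211555701, 78726432915, 1271412377401, 160650447120, 1251870851206,
  144153527895, 1316480913781, 1336087582756, 233412137985, 207251543400, 1400562460051,
  275709831285, 307180937985, 1414444097896, 370316177700, 1445279724691, 352523481960,
  1482890311681, 434450300985, 425354101335, 1531461338896, 1518007978306, 1586462216761,
  498251028870, 517915889730, 1594125473296, 580980334995, 1650634351396, 588729443445,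
  1658739713281, 654820258320, 1739580782146, 623311665030, 1736819421271]

/-- Words which give elements of order divisible by `3`. -/
def wl : List (List ℕ) := [[], [1], [0,2], [0,2], [2], [2], [0,1], [0,2], [2], [1], [0,2], [0,2],
  [1], [1], [0,1], [0,2], [0], [0], [0,0,1,2], [0,1], [0,1,2], [0], [0,2], [0,0,1,1], [1], [1],
  [0,0,2,2], [0,0,1,1], [0,1,3], [0], [0,1], [0,2], [0], [0], [0,1], [1,3], [3], [0], [0,0,1,2],
  [0,0,1,3], [1,2,3], [1], [0,0,3,3], [0,2], [0,1,2], [0], [0,0,1,1], [], [0], [1], [0,1], [0,1],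
  [0,1,2], [0], [0,0,3,3], [0,0,1,3], [2], [0], [0,0,1,1], [1,3], [1], [0], [0,0,2,2], [0,0,1,1],
  [0], [0], [0,0,2,2], [0,2], [0,1,3], [1], [0,1], [0,0,1,1], [1,2,3], [0], [0,1], [0,1],
  [1,2,3], [0], [0,3], [0,1], [0], [0], [0,0,1,1], [1,3], [1,2,3], [0], [0,0,1,1], [0,2], [1],
  [0], [0,0,1,1], [1,2], [3], [2], [0,2], [0,0,1,3], [0], [2], [0,0,3,3], [1,2], [0,2,3], [0],
  [0,3], [0,1], [], [0], [0,3], [1,2], [0,2,3], [0], [0,0,3,3], [0,1], [0], [0], [0,0,1,1],
  [1,2], [1], [0], [0,0,1,1], [], [1,2,3], [0], [0,1], [0,1], [0,1,2], [1], [0,0,1,2], [0,0,1,1],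
  [0], [0], [0,3], [0,0,1,1], [1], [2], [0,0,2,2], [0,1], [1,2,3], [0], [0,0,1,2], [1,3], [2],
  [0], [0,0,1,1], [0,0,1,3], [0], [0], [0,2], [0,2], [1], [0], [0,0,1,1], [0,1], [2], [3],
  [0,0,2,2], [0,0,1,1], [0,2,3], [0], [0,0,2,2], [0,0,2,2], [0], [0], [0,0,1,1], [0,0,1,3], [3],
  [0], [0,0,2,2], [0,1], [2], [1], [0,0,1,1], [0,0,1,1], [0,1,3], [0], [0,3], [1,3], [1,2,3],
  [1], [0,0,1,2], [0,0,1,3], [0], [0], [0,1], [0,0,1,3], [0,1,3], [1], [0,0,2,3], [0,2], [0],
  [0], [0,3], [0,1], [0,1,2], [1], [0,0,1,1], [0,0,1,1], [1,2,3], [1], [0,0,3,3], [0,0,1,3],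
  [0,2,3], [0], [], [0,0,1,1], [0,1,3], [0], [0,0,1,1], [0,0,2,2], [1], [], [0,2], [0,2],
  [0,1,2], [0], [0,3], [0,0,1,3], [0], [2], [1,1,2,2], [0,0,2,2], [0], [0], [0,0,3,3], [1,3],
  [3], [0], [0,0,1,2], [0,3], [1], [0], [1,1,2,2], [0,0,2,2], [0,1,3], [0], [0,0,1,2], [0,1],
  [2], [0], [0,1], [0,1], [0,1,2], [2], [0,1], [0,3], [0,1,2], [0], [0,1], [1,2], [0,2,3], [0],
  [0,0,1,1], [0,2], [2], [1], [0,1], [0,0,1,1], [1], [3], [0,1], [0,0,1,3], [0], [0], [0,3],
  [1,2], [0], [], [0,0,1,1], [0,1], [0,2,3], [0], [1,1,2,2], [0,0,1,1], [1,2,3], [0], [],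
  [0,0,1,1], [1,2,3], [0], [0,2], [0,0,1,1], [1], [0], [0,0,1,2], [0,0,2,2], [1], [0], [0,2],
  [0,0,1,1]]

/-- Elements stabilizing the set consisting of zero and infinity. -/
def isP (c : ℕ) : Bool :=
  (Nat.beq (dg c 9) 9 && Nat.beq (dg c 0) 0) || (Nat.beq (dg c 9) 0 && Nat.beq (dg c 0) 9)

/-- The code of an element of order `5`. -/
def qc : ℕ := 14655231810

/-- Codes of the powers of the element of order `5`. -/
def qpc (e : ℕ) : ℕ :=
  [654820258320, 14655231810, 144153527895, 498251028870, 434450300985].getD (e % 5) 0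

/-- Elements normalizing the subgroup of order `5`. -/
def isM (c : ℕ) : Bool :=
  memN (mulc c qc) [mulc (qpc 1) c, mulc (qpc 2) c, mulc (qpc 3) c, mulc (qpc 4) c]

/-- The value of a word. -/
def wordc (c : ℕ) (l : List ℕ) : ℕ := l.foldl (fun acc e => mulc (mulc acc (qpc e)) c) onec

/-- Squares. -/
def sqc (c : ℕ) : ℕ := mulc c c

/-- The power with exponent `160`. -/
def pow160c (c : ℕ) : ℕ := sqc (sqc (sqc (sqc (sqc (mulc (sqc (sqc c)) c)))))

/-- The codes of the elements which map infinity to infinity or to `1`. -/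
def rows91 : List ℕ := (Lc.getD 9 []).flatten ++ (Lc.getD 1 []).flatten

theorem word_check :
    ((rows91.zip wl).all fun x => isM x.1 || !(Nat.beq (pow160c (wordc x.1 x.2)) onec)) = true := by
  decide +kernel

theorem wl_length : wl.length = 288 := by decide +kernel
theorem rows_length : rows91.length = 288 := by decide +kernel

theorem LP_check : Lf.filter isP = LPl := by decide +kernel
theorem LM_check : Lf.filter isM = LMl := by decide +kernel
theorem LP0_check : (LPl.filter fun c => Nat.beq (dg c 10) 0) = LP0l := by decide +kernel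

/-- Commuting codes. -/
def commc (a b : ℕ) : Bool := Nat.beq (mulc a b) (mulc b a)

/-- The number of codes in the list which commute with a given one. -/
def cntc (l : List ℕ) (c : ℕ) : ℕ := (l.map fun d => bif commc c d then 1 else 0).sum

theorem P_count : (LPl.map (cntc LPl)).sum = 352 := by decide +kernel
theorem P0_count : (LP0l.map (cntc LP0l)).sum = 112 := by decide +kernel
theorem P_big : (LPl.map fun c => bif Nat.ble 16 (cntc LPl c) then 1 else 0).sum = 8 := by
  decide +kernel
theorem M_count : (LMl.map (cntc LMl)).sum = 400 := by decide +kernel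
theorem M_excess : (LMl.map fun c => min 20 (cntc LMl c) - 8).sum = 40 := by decide +kernel

end Pool.Agent.R720.BC
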