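import Pool.Agent.R720.Sub2

/-!
# The subgroups of `PΓL₂(9)` of order prime to `3`
-/

namespace Pool.Agent.R720.BC

open scoped Classical

theorem closedL (c : ℕ) (hc : c ∈ Lf) (s : ℕ) (hs : s ∈ gensC) : memL (mulc s c) = true := by
  unfold Lf at hc
  rw [List.mem_flatten] at hc
  obtain ⟨r', hr', hc'⟩ := hc
  rw [List.mem_flatten] at hr'
  obtain ⟨r, hr, hr''⟩ := hr'
  have h := closed_check
  rw [List.all_eq_true] at h
  have h1 := h r hr
  rw [List.all_eq_true] at h1
  have h2 := h1 r' hr''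
  rw [List.all_eq_true] at h2
  have h3 := h2 c hc'
  rw [List.all_eq_true] at h3
  exact h3 s hs

theorem memL_cd (x : Y) (hx : x ∈ Gam) : memL (cd x) = true := by
  have hx' : x ∈ Submonoid.closure gens := by
    have h := Subgroup.closure_toSubmonoid_of_finite (s := gens)
    rw [← h]
    exact hx
  induction hx' using Submonoid.closure_induction_left with
  | one => rw [cd_one]; decide +kernel
  | mul_left s hs y hy ih =>
    have hy' : y ∈ Gam := by
      have h := Subgroup.closure_toSubmonoid_of_finite (s := gens)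
      rw [← h] at hy
      exact hy
    rw [cd_mul]
    apply closedL _ (mem_of_memL (ih hy'))
    unfold gens at hs
    simp only [Set.mem_insert_iff, Set.mem_singleton_iff] at hs
    rcases hs with rfl | rfl | rfl | rfl | rfl
    · rw [cd_gu1]; simp [gensC]
    · rw [cd_gu3]; simp [gensC]
    · rw [cd_gt]; simp [gensC]
    · rw [cd_gs]; simp [gensC]
    · rw [cd_gw]; simp [gensC]

theorem mem_Gam_iff (y : Y) : y ∈ Gam ↔ cd y ∈ Lf := by
  constructor
  · exact cd_mem_of_mem y
  · intro h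
    obtain ⟨x, hx, hxy⟩ := real_of_mem _ h
    rwa [← cd_inj hxy]

/-- The code of an element of the group. -/
def cg (x : Gam) : ℕ := cd x.1

theorem cg_inj : Function.Injective cg := fun _ _ h => Subtype.ext (cd_inj h)

theorem cg_mul (x y : Gam) : cg (x * y) = mulc (cg x) (cg y) := cd_mul _ _

theorem cg_one : cg 1 = onec := cd_one

theorem cg_mem (x : Gam) : cg x ∈ Lf := (mem_Gam_iff x.1).1 x.2

theorem exists_cg {c : ℕ} (hc : c ∈ Lf) : ∃ x : Gam, cg x = c := by
  obtain ⟨x, hx, hxc⟩ := real_of_mem _ hc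
  exact ⟨⟨x, hx⟩, hxc⟩

noncomputable instance : Fintype Gam := Fintype.ofFinite _

/-- A set of elements and the list of its codes. -/
structure Codes (A : Finset Gam) (l : List ℕ) : Prop where
  nodup : l.Nodup
  iff : ∀ x : Gam, x ∈ A ↔ cg x ∈ l
  sub : ∀ c ∈ l, c ∈ Lf

theorem Codes.image {A : Finset Gam} {l : List ℕ} (h : Codes A l) :
    A.image cg = l.toFinset := by
  ext c
  rw [Finset.mem_image, List.mem_toFinset]
  constructor
  · rintro ⟨x, hx, rfl⟩
    exact (h.iff x).1 hx
  · intro hc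
    obtain ⟨x, rfl⟩ := exists_cg (h.sub c hc)
    exact ⟨x, (h.iff x).2 hc, rfl⟩

theorem Codes.sum {A : Finset Gam} {l : List ℕ} (h : Codes A l) (f : ℕ → ℕ) :
    ∑ x ∈ A, f (cg x) = (l.map f).sum := by
  rw [← List.sum_toFinset f h.nodup, ← h.image, Finset.sum_image fun x _ y _ hxy => cg_inj hxy]

theorem Codes.card {A : Finset Gam} {l : List ℕ} (h : Codes A l) : A.card = l.length := by
  rw [← Finset.card_image_of_injective A cg_inj, h.image, List.toFinset_card_of_nodup h.nodup]

theorem commc_iff (x y : Gam) : commc (cg x) (cg y) = true ↔ x * y = y * x := by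
  unfold commc
  rw [← cg_mul, ← cg_mul, Nat.beq_eq]
  exact cg_inj.eq_iff

theorem Codes.cz {A : Finset Gam} {l : List ℕ} (h : Codes A l) (x : Gam) :
    cz A x = cntc l (cg x) := by
  unfold BC.cz cntc
  rw [Finset.card_filter, ← h.sum]
  refine Finset.sum_congr rfl fun y _ => ?_
  by_cases hc : x * y = y * x
  · rw [if_pos hc, (commc_iff x y).2 hc]; rfl
  · rw [if_neg hc]
    have : commc (cg x) (cg y) = false := by
      rw [Bool.eq_false_iff]
      intro h'
      exact hc ((commc_iff x y).1 h')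
    rw [this]; rfl

theorem codes_all : Codes Finset.univ Lf :=
  ⟨Lf_nodup, fun x => by simp [cg_mem x], fun _ h => h⟩

theorem card_Gam : Nat.card Gam = 1440 := by
  rw [Nat.card_eq_fintype_card, ← Finset.card_univ, codes_all.card, Lf_length]

theorem codes_filter (p : ℕ → Bool) :
    Codes (Finset.univ.filter fun x : Gam => p (cg x) = true) (Lf.filter p) :=
  ⟨Lf_nodup.filter _, fun x => by simp [cg_mem x], fun c h => (List.mem_filter.1 h).1⟩

/-- The stabilizer of the set consisting of zero and infinity. -/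
def P2 : Subgroup Gam where
  carrier := {x | (x.1.1 9 = 9 ∧ x.1.1 0 = 0) ∨ (x.1.1 9 = 0 ∧ x.1.1 0 = 9)}
  one_mem' := Or.inl ⟨rfl, rfl⟩
  mul_mem' := by
    rintro x y (⟨h1, h2⟩ | ⟨h1, h2⟩) (⟨h3, h4⟩ | ⟨h3, h4⟩)
    · left
      exact ⟨(congrArg x.1.1 h3).trans h1, (congrArg x.1.1 h4).trans h2⟩
    · right
      exact ⟨(congrArg x.1.1 h3).trans h2, (congrArg x.1.1 h4).trans h1⟩
    · right
      exact ⟨(congrArg x.1.1 h3).trans h1, (congrArg x.1.1 h4).trans h2⟩
    · left
      exact ⟨(congrArg x.1.1 h3).trans h2, (congrArg x.1.1 h4).trans h1⟩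
  inv_mem' := by
    rintro x (⟨h1, h2⟩ | ⟨h1, h2⟩)
    · left
      exact ⟨(Equiv.Perm.inv_eq_iff_eq).2 h1.symm, (Equiv.Perm.inv_eq_iff_eq).2 h2.symm⟩
    · right
      exact ⟨(Equiv.Perm.inv_eq_iff_eq).2 h2.symm, (Equiv.Perm.inv_eq_iff_eq).2 h1.symm⟩

theorem dg_cg (x : Gam) (i : Fin 10) : dg (cg x) i = (x.1.1 i : ℕ) := dg_cd _ _

theorem mem_P2_iff (x : Gam) : x ∈ P2 ↔ isP (cg x) = true := by
  have h9 := dg_cg x 9
  have h0 := dg_cg x 0
  have e9 : ((9 : Fin 10) : ℕ) = 9 := rfl
  have e0 : ((0 : Fin 10) : ℕ) = 0 := rfl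
  rw [e9] at h9
  rw [e0] at h0
  unfold isP
  rw [h9, h0]
  show ((x.1.1 9 = 9 ∧ x.1.1 0 = 0) ∨ (x.1.1 9 = 0 ∧ x.1.1 0 = 9)) ↔ _
  simp only [Bool.or_eq_true, Bool.and_eq_true, Nat.beq_eq, Fin.ext_iff]
  rfl

theorem codes_P2 : Codes (fs P2) LPl := by
  rw [← LP_check]
  have h := codes_filter isP
  have e : fs P2 = Finset.univ.filter fun x : Gam => isP (cg x) = true := by
    ext x
    rw [mem_fs, mem_P2_iff]
    simp
  rwa [e]

theorem card_P2 : Nat.card P2 = 32 := by
  rw [← card_fs, codes_P2.card]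
  rfl

/-- The elements which normalize the subgroup of order `5`. -/
noncomputable def MS : Finset Gam := Finset.univ.filter fun x : Gam => isM (cg x) = true

theorem codes_MS : Codes MS LMl := by
  rw [← LM_check]
  exact codes_filter isM

theorem card_MS : MS.card = 40 := by
  rw [codes_MS.card]
  rfl

/-- The homomorphism with kernel `PGL₂(9)`. -/
def eps : Gam →* C2 := (MonoidHom.snd _ _).comp Gam.subtype

theorem eps_eq_one_iff (x : Gam) : eps x = 1 ↔ Nat.beq (dg (cg x) 10) 0 = true := by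
  rw [Nat.beq_eq]
  show x.1.2 = 1 ↔ dg (cd x.1) 10 = 0
  rw [dg_cd_ten, ZMod.val_eq_zero]
  exact Iff.rfl

theorem codes_P20 : Codes (fs (P2 ⊓ eps.ker)) LP0l := by
  rw [← LP0_check]
  refine ⟨codes_P2.nodup.filter _, ?_, ?_⟩
  · intro x
    rw [mem_fs, Subgroup.mem_inf, MonoidHom.mem_ker, eps_eq_one_iff, List.mem_filter, ← mem_fs,
      codes_P2.iff]
  · intro c hc
    exact codes_P2.sub c (List.mem_filter.1 hc).1

theorem cpn_P2 : cpn P2 = 352 := by
  rw [cpn_sub, Finset.sum_congr rfl fun x _ => codes_P2.cz x, codes_P2.sum, P_count]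

theorem cpn_P20 : cpn (P2 ⊓ eps.ker : Subgroup Gam) = 112 := by
  rw [cpn_sub, Finset.sum_congr rfl fun x _ => codes_P20.cz x, codes_P20.sum, P0_count]

/-- The bound for the subgroups of the Sylow `2`-subgroup. -/
theorem bound_P2 (R : Subgroup Gam) (hR : R ≤ P2) :
    cpn R ≤ 10 * Nat.card R ∨ R = P2 := by
  have hdvd : Nat.card R ∣ 32 := by
    rw [← card_P2]; exact Subgroup.card_dvd_of_le hR
  have hle := Nat.le_of_dvd (by norm_num) hdvd
  have hsub : fs R ⊆ fs P2 := by
    intro x hx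
    rw [mem_fs] at hx ⊢
    exact hR hx
  by_cases h8 : Nat.card R ≤ 10
  · left
    exact (cpn_le_sq R).trans (Nat.mul_le_mul_right _ h8)
  have hn : Nat.card R = 16 ∨ Nat.card R = 32 := by
    interval_cases hc : Nat.card R <;> omega
  rcases hn with hn | hn
  · left
    rw [hn]
    apply cpn_sixteen hn
    intro hab
    have h1 : (fs R).card ≤ ∑ x ∈ fs P2, (if 16 ≤ cz (fs P2) x then 1 else 0) := by
      calc (fs R).card = ∑ x ∈ fs R, 1 := by simp
        _ ≤ ∑ x ∈ fs R, (if 16 ≤ cz (fs P2) x then 1 else 0) := by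
            refine Finset.sum_le_sum fun x hx => ?_
            have h2 : 16 ≤ cz (fs P2) x := by
              rw [← hn, ← card_fs]
              refine le_trans (le_of_eq ?_) (cz_mono hsub x)
              symm
              apply cz_eq_card
              intro y hy
              rw [mem_fs] at hx hy
              exact congrArg Subtype.val (hab ⟨x, hx⟩ ⟨y, hy⟩)
            rw [if_pos h2]
        _ ≤ ∑ x ∈ fs P2, (if 16 ≤ cz (fs P2) x then 1 else 0) :=
            Finset.sum_le_sum_of_subset hsub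
    have h3 : ∑ x ∈ fs P2, (if 16 ≤ cz (fs P2) x then 1 else 0) = 8 := by
      rw [← P_big, ← codes_P2.sum]
      refine Finset.sum_congr rfl fun x _ => ?_
      rw [codes_P2.cz]
      by_cases hb : 16 ≤ cntc LPl (cg x)
      · rw [if_pos hb, Nat.ble_eq_true_of_le hb]; rfl
      · rw [if_neg hb]
        have : Nat.ble 16 (cntc LPl (cg x)) = false := by
          rw [Bool.eq_false_iff]
          intro h'
          exact hb (Nat.le_of_ble_eq_true h')
        rw [this]; rfl
    rw [h3, card_fs, hn] at h1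
    omega
  · right
    apply Subgroup.eq_of_le_of_card_ge hR
    rw [hn, card_P2]

end Pool.Agent.R720.BC
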