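import Pool.Agent.R720.Sub3

/-!
# The subgroups of `PΓL₂(9)` of order prime to `3`: conclusion
-/

namespace Pool.Agent.R720.BC

open scoped Classical Pointwise

/-- An element of order `5`. -/
def gq : Y := (⟨![2, 4, 7, 1, 5, 8, 9, 6, 3, 0], ![9, 3, 0, 8, 1, 4, 7, 2, 5, 6],
  by decide, by decide⟩, Multiplicative.ofAdd 0)

theorem cd_gq : cd gq = qc := by decide +kernel

/-- An element of order `5`. -/
def q5 : Gam := ⟨gq, (mem_Gam_iff gq).2 (mem_of_memL (by decide +kernel))⟩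

theorem cg_q5 : cg q5 = qc := cd_gq

/-- The powers of the element of order `5`. -/
def qp (e : ℕ) : Gam := q5 ^ (e % 5)

theorem cg_q5_pow (e : ℕ) (he : e < 5) : cg (q5 ^ e) =
    [654820258320, 14655231810, 144153527895, 498251028870, 434450300985].getD e 0 := by
  have h0 : cg (q5 ^ 0) = 654820258320 := by rw [pow_zero, cg_one]; rfl
  have h1 : cg (q5 ^ 1) = 14655231810 := by rw [pow_one, cg_q5]; rfl
  have h2 : cg (q5 ^ 2) = 144153527895 := by
    rw [pow_succ, cg_mul, h1, cg_q5]; decide +kernel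
  have h3 : cg (q5 ^ 3) = 498251028870 := by
    rw [pow_succ, cg_mul, h2, cg_q5]; decide +kernel
  have h4 : cg (q5 ^ 4) = 434450300985 := by
    rw [pow_succ, cg_mul, h3, cg_q5]; decide +kernel
  interval_cases e
  · exact h0
  · exact h1
  · exact h2
  · exact h3
  · exact h4

theorem cg_qp (e : ℕ) : cg (qp e) = qpc e := cg_q5_pow _ (Nat.mod_lt _ (by norm_num))

theorem q5_pow_five : q5 ^ 5 = 1 := by
  apply cg_inj
  rw [pow_succ, cg_mul, cg_q5_pow 4 (by norm_num), cg_q5, cg_one]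
  decide +kernel

theorem q5_ne_one : q5 ≠ 1 := by
  intro h
  have h1 := congrArg cg h
  rw [cg_q5, cg_one] at h1
  exact absurd h1 (by decide)

theorem orderOf_q5 : orderOf q5 = 5 :=
  have : Fact (Nat.Prime 5) := ⟨Nat.prime_five⟩
  orderOf_eq_prime q5_pow_five q5_ne_one

/-- The value of a word. -/
def wordg (h : Gam) (l : List ℕ) : Gam := l.foldl (fun acc e => acc * qp e * h) 1

theorem cg_fold (h : Gam) (l : List ℕ) (a : Gam) :
    cg (l.foldl (fun acc e => acc * qp e * h) a) =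
      l.foldl (fun acc e => mulc (mulc acc (qpc e)) (cg h)) (cg a) := by
  induction l generalizing a with
  | nil => rfl
  | cons e l ih =>
    rw [List.foldl_cons, List.foldl_cons, ih, cg_mul, cg_mul, cg_qp]

theorem cg_wordg (h : Gam) (l : List ℕ) : cg (wordg h l) = wordc (cg h) l := by
  unfold wordg wordc
  rw [cg_fold, cg_one]

theorem fold_mem (R : Subgroup Gam) (hq : q5 ∈ R) (h : Gam) (hh : h ∈ R) (l : List ℕ) (a : Gam)
    (ha : a ∈ R) : l.foldl (fun acc e => acc * qp e * h) a ∈ R := by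
  induction l generalizing a with
  | nil => exact ha
  | cons e l ih =>
    rw [List.foldl_cons]
    exact ih _ (mul_mem (mul_mem ha (pow_mem hq _)) hh)

theorem cg_pow160 (x : Gam) : cg (x ^ 160) = pow160c (cg x) := by
  have h : x ^ 160 =
      ((((((x ^ 2) ^ 2 * x) ^ 2) ^ 2) ^ 2) ^ 2) ^ 2 := by
    have e5 : (x ^ 2) ^ 2 * x = x ^ 5 := by rw [← pow_mul, ← pow_succ]
    rw [e5, ← pow_mul, ← pow_mul, ← pow_mul, ← pow_mul, ← pow_mul]
  have hs : ∀ y : Gam, cg (y ^ 2) = sqc (cg y) := by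
    intro y
    rw [pow_two, cg_mul]; rfl
  rw [h, hs, hs, hs, hs, hs, cg_mul, hs, hs]
  rfl

theorem isM_iff (x : Gam) : isM (cg x) = true ↔
    ∃ k, 1 ≤ k ∧ k < 5 ∧ x * q5 = q5 ^ k * x := by
  have e : ∀ k, 1 ≤ k → k < 5 → (mulc (cg x) qc = mulc (qpc k) (cg x) ↔ x * q5 = q5 ^ k * x) := by
    intro k _ hk
    rw [← cg_q5, ← cg_qp, ← cg_mul, ← cg_mul, cg_inj.eq_iff]
    unfold qp
    rw [Nat.mod_eq_of_lt hk]
  unfold isM memN
  simp only [List.any_cons, List.any_nil, Bool.or_false, Bool.or_eq_true, Nat.beq_eq]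
  rw [e 1 (by norm_num) (by norm_num), e 2 (by norm_num) (by norm_num),
    e 3 (by norm_num) (by norm_num), e 4 (by norm_num) (by norm_num)]
  constructor
  · rintro (h | h | h | h)
    · exact ⟨1, by norm_num, by norm_num, h⟩
    · exact ⟨2, by norm_num, by norm_num, h⟩
    · exact ⟨3, by norm_num, by norm_num, h⟩
    · exact ⟨4, by norm_num, by norm_num, h⟩
  · rintro ⟨k, hk1, hk5, h⟩
    interval_cases k
    · exact Or.inl h
    · exact Or.inr (Or.inl h)
    · exact Or.inr (Or.inr (Or.inl h))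
    · exact Or.inr (Or.inr (Or.inr h))

theorem card_dvd_160 (R : Subgroup Gam) (h3 : ¬ 3 ∣ Nat.card R) : Nat.card R ∣ 160 := by
  have h1 : Nat.card R ∣ 160 * 9 := by
    have := Subgroup.card_subgroup_dvd_card R
    rw [card_Gam] at this
    exact this
  refine Nat.Coprime.dvd_of_dvd_mul_right ?_ h1
  have : Nat.Coprime (Nat.card R) 3 :=
    ((Nat.Prime.coprime_iff_not_dvd Nat.prime_three).2 h3).symm
  exact Nat.Coprime.pow_right 2 this

theorem pow_160 (R : Subgroup Gam) (h3 : ¬ 3 ∣ Nat.card R) (x : Gam) (hx : x ∈ R) :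
    x ^ 160 = 1 := by
  have h1 : orderOf x ∣ 160 := by
    have h2 : orderOf (⟨x, hx⟩ : R) ∣ Nat.card R := orderOf_dvd_natCard _
    rw [Subgroup.orderOf_mk] at h2
    exact h2.trans (card_dvd_160 R h3)
  exact orderOf_dvd_iff_pow_eq_one.1 h1

theorem mem_rows (h : Gam) (h9 : h.1.1 9 = 9 ∨ h.1.1 9 = 1) : cg h ∈ rows91 := by
  have h1 := memL_cd h.1 h.2
  unfold memL at h1
  have h2 := mem_of_memN h1
  obtain ⟨r, hr, hc⟩ := mem_getD _ _ _ h2
  have h3 : dg (cd h.1) 9 = (h.1.1 9 : ℕ) := dg_cd h.1 9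
  unfold rows91
  rw [List.mem_append]
  rcases h9 with h9 | h9
  · left
    rw [h3, h9] at hr
    rw [List.mem_flatten]
    exact ⟨r, hr, hc⟩
  · right
    rw [h3, h9] at hr
    rw [List.mem_flatten]
    exact ⟨r, hr, hc⟩

theorem isM_of_mem_aux (R : Subgroup Gam) (h3 : ¬ 3 ∣ Nat.card R) (hq : q5 ∈ R) (h : Gam)
    (hh : h ∈ R) (h9 : h.1.1 9 = 9 ∨ h.1.1 9 = 1) : isM (cg h) = true := by
  have h1 := mem_rows h h9
  obtain ⟨i, hi, hix⟩ := List.getElem_of_mem h1
  have hi' : i < wl.length := by rw [wl_length, ← rows_length]; exact hi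
  have hz : (cg h, wl[i]) ∈ rows91.zip wl := by
    have hlt : i < (rows91.zip wl).length := by
      rw [List.length_zip]; omega
    have := List.getElem_mem hlt
    rw [List.getElem_zip, hix] at this
    exact this
  have hc := word_check
  rw [List.all_eq_true] at hc
  have h2 := hc _ hz
  rw [Bool.or_eq_true] at h2
  rcases h2 with h2 | h2
  · exact h2
  · exfalso
    simp only at h2
    have hw : wordg h wl[i] ∈ R := fold_mem R hq h hh _ 1 (one_mem _)
    rw [← cg_wordg, ← cg_pow160, pow_160 R h3 _ hw, cg_one] at h2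
    exact absurd h2 (by decide)

theorem exists_rot (p : Fin 10) : ∃ i : Fin 5, (gq.1 ^ (i : ℕ)) p = 9 ∨ (gq.1 ^ (i : ℕ)) p = 1 := by
  revert p
  decide +kernel

theorem isM_of_mem (R : Subgroup Gam) (h3 : ¬ 3 ∣ Nat.card R) (hq : q5 ∈ R) (h : Gam)
    (hh : h ∈ R) : isM (cg h) = true := by
  obtain ⟨i, hi⟩ := exists_rot (h.1.1 9)
  have h1 : isM (cg (q5 ^ (i : ℕ) * h)) = true :=
    isM_of_mem_aux R h3 hq _ (mul_mem (pow_mem hq _) hh) hi
  rw [isM_iff] at h1 ⊢
  obtain ⟨k, hk1, hk5, hk⟩ := h1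
  refine ⟨k, hk1, hk5, ?_⟩
  have h2 : q5 ^ (i : ℕ) * (h * q5) = q5 ^ (i : ℕ) * (q5 ^ k * h) := by
    rw [← mul_assoc, hk, ← mul_assoc, ← mul_assoc, ← pow_add, ← pow_add, add_comm]
  exact mul_left_cancel h2

theorem bound_M (R : Subgroup Gam) (h3 : ¬ 3 ∣ Nat.card R) (hq : q5 ∈ R) :
    cpn R ≤ 10 * Nat.card R := by
  have hsub : fs R ⊆ MS := by
    intro x hx
    rw [mem_fs] at hx
    exact Finset.mem_filter.2 ⟨Finset.mem_univ _, isM_of_mem R h3 hq x hx⟩
  have hle : Nat.card R ≤ 40 := by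
    rw [← card_fs, ← card_MS]
    exact Finset.card_le_card hsub
  have hdvd := card_dvd_160 R h3
  have h5 : 5 ∣ Nat.card R := by
    have h2 : orderOf (⟨q5, hq⟩ : R) ∣ Nat.card R := orderOf_dvd_natCard _
    rwa [Subgroup.orderOf_mk, orderOf_q5] at h2
  by_cases h10 : Nat.card R ≤ 10
  · exact (cpn_le_sq R).trans (Nat.mul_le_mul_right _ h10)
  have hn : Nat.card R = 20 ∨ Nat.card R = 40 := by
    interval_cases hc : Nat.card R <;> omega
  rcases hn with hn | hn
  · have h := cpn_le_of_excess R MS hsub 20 8 40 hn (by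
      rw [← M_excess, ← codes_MS.sum]
      exact le_of_eq (Finset.sum_congr rfl fun x _ => by rw [codes_MS.cz]))
    rw [hn]
    omega
  · have heq : fs R = MS := Finset.eq_of_subset_of_card_le hsub (by rw [card_fs, card_MS, hn])
    rw [cpn_sub, heq, Finset.sum_congr rfl fun x _ => codes_MS.cz x, codes_MS.sum, M_count, hn]

end Pool.Agent.R720.BC
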