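import Pool.Agent.R720.Sub4

/-!
# The subgroups of `PΓL₂(9)` of order prime to `3`: Sylow's theorem
-/

namespace Pool.Agent.R720.BC

open scoped Classical Pointwise

theorem fact_two : (1440 : ℕ).factorization 2 = 5 := by
  have h : (1440 : ℕ) = 2 ^ 5 * 45 := by norm_num
  rw [h, Nat.factorization_mul (by norm_num) (by norm_num), Finsupp.add_apply,
    Nat.Prime.factorization_pow Nat.prime_two, Finsupp.single_eq_same,
    Nat.factorization_eq_zero_of_not_dvd (by norm_num)]

theorem fact_five : (1440 : ℕ).factorization 5 = 1 := by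
  have h : (1440 : ℕ) = 5 ^ 1 * 288 := by norm_num
  rw [h, Nat.factorization_mul (by norm_num) (by norm_num), Finsupp.add_apply,
    Nat.Prime.factorization_pow Nat.prime_five, Finsupp.single_eq_same,
    Nat.factorization_eq_zero_of_not_dvd (by norm_num)]

instance : Fact (Nat.Prime 5) := ⟨Nat.prime_five⟩

/-- The conjugate of a subgroup. -/
def cs (g : Gam) (R : Subgroup Gam) : Subgroup Gam := R.map (MulAut.conj g).toMonoidHom

theorem mem_cs (g : Gam) (R : Subgroup Gam) (x : Gam) (hx : x ∈ R) : g * x * g⁻¹ ∈ cs g R :=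
  ⟨x, hx, rfl⟩

/-- The isomorphism with the conjugate subgroup. -/
noncomputable def csEquiv (g : Gam) (R : Subgroup Gam) : R ≃* cs g R :=
  Subgroup.equivMapOfInjective R _ (MulAut.conj g).injective

theorem card_cs (g : Gam) (R : Subgroup Gam) : Nat.card (cs g R) = Nat.card R :=
  (Nat.card_congr (csEquiv g R).toEquiv).symm

theorem cpn_cs (g : Gam) (R : Subgroup Gam) : cpn (cs g R) = cpn R :=
  (cpn_congr (csEquiv g R)).symm

theorem cs_inf_ker (g : Gam) (R : Subgroup Gam) :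
    cs g (R ⊓ eps.ker) = cs g R ⊓ eps.ker := by
  ext x
  constructor
  · rintro ⟨y, ⟨hy1, hy2⟩, rfl⟩
    refine ⟨⟨y, hy1, rfl⟩, ?_⟩
    show eps (g * y * g⁻¹) = 1
    have : eps y = 1 := hy2
    rw [map_mul, map_mul, this, mul_one, ← map_mul, mul_inv_cancel, map_one]
  · rintro ⟨⟨y, hy1, rfl⟩, hx2⟩
    refine ⟨y, ⟨hy1, ?_⟩, rfl⟩
    have h : eps (g * y * g⁻¹) = 1 := hx2
    show eps y = 1
    rw [map_mul, map_mul, map_inv] at h
    have h2 : eps g * eps y * (eps g)⁻¹ = eps y := by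
      rw [mul_comm (eps g) (eps y), mul_inv_cancel_right]
    rw [← h2]
    exact h

/-- The Sylow `2`-subgroup. -/
noncomputable def S2 : Sylow 2 Gam := Sylow.ofCard P2 (by
  rw [card_P2, card_Gam, fact_two]; norm_num)

theorem S2_coe : (S2 : Subgroup Gam) = P2 := rfl

/-- The subgroups of order prime to `3` of `PΓL₂(9)` satisfy `k(R) ≤ 10`, or are Sylow
`2`-subgroups with `k(R) = 11`, `k(R ∩ PGL₂(9)) = 7`. -/
theorem bound (R : Subgroup Gam) (h3 : ¬ 3 ∣ Nat.card R) :
    cpn R ≤ 10 * Nat.card R ∨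
      (Nat.card R = 32 ∧ cpn R = 352 ∧ cpn (R ⊓ eps.ker : Subgroup Gam) = 112) := by
  by_cases h5 : 5 ∣ Nat.card R
  · left
    obtain ⟨⟨x, hx⟩, hox⟩ := exists_prime_orderOf_dvd_card' (G := R) 5 h5
    rw [Subgroup.orderOf_mk] at hox
    let Sx : Sylow 5 Gam := Sylow.ofCard (Subgroup.zpowers x) (by
      rw [Nat.card_zpowers, hox, card_Gam, fact_five, pow_one])
    let Sq : Sylow 5 Gam := Sylow.ofCard (Subgroup.zpowers q5) (by
      rw [Nat.card_zpowers, orderOf_q5, card_Gam, fact_five, pow_one])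
    obtain ⟨g, hg⟩ := MulAction.exists_smul_eq Gam Sx Sq
    have hq : q5 ∈ cs g R := by
      have h1 : q5 ∈ (Sq : Subgroup Gam) := Subgroup.mem_zpowers q5
      rw [← hg, Sylow.coe_subgroup_smul] at h1
      rw [Subgroup.mem_smul_pointwise_iff_exists] at h1
      obtain ⟨y, hy, hyq⟩ := h1
      have hy' : y ∈ Subgroup.zpowers x := hy
      have hyR : y ∈ R := (Subgroup.zpowers_le.2 hx) hy'
      exact ⟨y, hyR, hyq⟩
    have h := bound_M (cs g R) (by rwa [card_cs]) hq
    rwa [cpn_cs, card_cs] at h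
  · have hcard : ∃ n, Nat.card R = 2 ^ n := by
      have h160 := card_dvd_160 R h3
      have h32 : Nat.card R ∣ 2 ^ 5 := by
        have h1 : Nat.card R ∣ 32 * 5 := h160
        refine Nat.Coprime.dvd_of_dvd_mul_right ?_ h1
        exact ((Nat.Prime.coprime_iff_not_dvd Nat.prime_five).2 h5).symm
      obtain ⟨k, _, hk⟩ := (Nat.dvd_prime_pow Nat.prime_two).1 h32
      exact ⟨k, hk⟩
    have hp : IsPGroup 2 R := by
      obtain ⟨n, hn⟩ := hcard
      exact IsPGroup.of_card hn
    obtain ⟨S, hS⟩ := hp.exists_le_sylow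
    obtain ⟨g, hg⟩ := MulAction.exists_smul_eq Gam S S2
    have hle : cs g R ≤ P2 := by
      rintro _ ⟨y, hy, rfl⟩
      have h1 : y ∈ (S : Subgroup Gam) := hS hy
      rw [← S2_coe, ← hg, Sylow.coe_subgroup_smul]
      exact Subgroup.smul_mem_pointwise_smul y (MulAut.conj g) _ h1
    rcases bound_P2 (cs g R) hle with h | h
    · left
      rwa [cpn_cs, card_cs] at h
    · right
      refine ⟨?_, ?_, ?_⟩
      · rw [← card_cs g, h, card_P2]
      · rw [← cpn_cs g, h, cpn_P2]
      · rw [← cpn_cs g, cs_inf_ker, h, cpn_P20]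

end Pool.Agent.R720.BC
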